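import Pool.Agent.Y867.WR.Sec

/-! # Gaussians, and Plancherel for finite sums of translated Gaussians -/

set_option autoImplicit false

open MeasureTheory Filter Finset
open scoped ENNReal Real

namespace Pool.Agent.Y867.WC

open Pool.Agent.W928.MW (e e_add e_norm e_cont)
open Pool.Agent.Y867.WR (sq_e)

/-- the Gaussian with variance parameter `q` -/
noncomputable def gq (q t : ℝ) : ℝ := Real.exp (-(π * t ^ 2 / q)) / √q

theorem gq_cont (q : ℝ) : Continuous (gq q) := by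
  unfold gq
  fun_prop

theorem gq_pos (q t : ℝ) (hq : 0 < q) : 0 < gq q t := by
  unfold gq
  positivity

theorem gq_four (q : ℝ) (hq : 0 < q) (t : ℝ) :
    ∫ α : ℝ, ((Real.exp (-(π * q * α ^ 2)) : ℝ) : ℂ) * e (α * t) = ((gq q t : ℝ) : ℂ) := by
  have hb : 0 < ((π * q : ℝ) : ℂ).re := by rw [Complex.ofReal_re]; positivity
  have h := fourierIntegral_gaussian hb ((2 * π * t : ℝ) : ℂ)
  have h1 : ∀ α : ℝ, ((Real.exp (-(π * q * α ^ 2)) : ℝ) : ℂ) * e (α * t) =
      Complex.exp (Complex.I * ((2 * π * t : ℝ) : ℂ) * α) * Complex.exp (-((π * q : ℝ) : ℂ) * α ^ 2) := by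
    intro α
    unfold Pool.Agent.W928.MW.e
    rw [Complex.ofReal_exp, mul_comm]
    congr 1
    · congr 1
      push_cast
      ring
    · congr 1
      push_cast
      ring
  simp_rw [h1]
  rw [h]
  have hpi : (π : ℂ) ≠ 0 := by exact_mod_cast Real.pi_ne_zero
  have hqc : (q : ℂ) ≠ 0 := by exact_mod_cast hq.ne'
  have h2 : ((π : ℂ) / ((π * q : ℝ) : ℂ)) ^ (1 / 2 : ℂ) = ((1 / √q : ℝ) : ℂ) := by
    have h3 : (π : ℂ) / ((π * q : ℝ) : ℂ) = ((1 / q : ℝ) : ℂ) := by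
      push_cast
      field_simp
    rw [h3, show (1 / 2 : ℂ) = ((1 / 2 : ℝ) : ℂ) by push_cast; ring, ← Complex.ofReal_cpow (by positivity),
      ← Real.sqrt_eq_rpow, Real.sqrt_div zero_le_one, Real.sqrt_one]
  rw [h2]
  unfold gq
  rw [show -(((2 * π * t : ℝ) : ℂ)) ^ 2 / (4 * ((π * q : ℝ) : ℂ)) = ((-(π * t ^ 2 / q) : ℝ) : ℂ) by
    push_cast
    field_simp
    ring]
  rw [← Complex.ofReal_exp]
  push_cast
  ring

theorem gq_prod (a b : ℝ) (ha : 0 < a) (hb : 0 < b) (u v τ : ℝ) :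
    gq a (u - τ) * gq b (v - τ) = (Real.exp (-(π * (u - v) ^ 2 / (a + b))) / (√a * √b)) *
      Real.exp (-(π * ((a + b) / (a * b))) * (τ - (u * b + v * a) / (a + b)) ^ 2) := by
  unfold gq
  rw [div_mul_div_comm, ← Real.exp_add, div_mul_eq_mul_div, ← Real.exp_add]
  congr 2
  field_simp
  ring

theorem gq_int (a b : ℝ) (ha : 0 < a) (hb : 0 < b) (u v : ℝ) :
    Integrable (fun τ => gq a (u - τ) * gq b (v - τ)) := by
  simp_rw [gq_prod a b ha hb u v]
  apply Integrable.const_mul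
  have h1 : Integrable (fun x : ℝ => Real.exp (-(π * ((a + b) / (a * b))) * x ^ 2)) :=
    integrable_exp_neg_mul_sq (by positivity)
  exact h1.comp_sub_right ((u * b + v * a) / (a + b))

theorem gq_corr (a b : ℝ) (ha : 0 < a) (hb : 0 < b) (u v : ℝ) :
    ∫ τ : ℝ, gq a (u - τ) * gq b (v - τ) = gq (a + b) (u - v) := by
  simp_rw [gq_prod a b ha hb u v]
  rw [integral_const_mul, integral_sub_right_eq_self (fun x : ℝ => Real.exp (-(π * ((a + b) / (a * b))) * x ^ 2)),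
    integral_gaussian]
  have h1 : π / (π * ((a + b) / (a * b))) = a * b / (a + b) := by
    have := Real.pi_ne_zero
    field_simp
  rw [h1, Real.sqrt_div (by positivity), Real.sqrt_mul ha.le]
  unfold gq
  have h2 : 0 < √a := Real.sqrt_pos.mpr ha
  have h3 : 0 < √b := Real.sqrt_pos.mpr hb
  have h4 : 0 < √(a + b) := Real.sqrt_pos.mpr (by positivity)
  field_simp

/-- difference of two Gaussians -/
noncomputable def gd (q Q t : ℝ) : ℝ := gq q t - gq Q t

/-- its squared Fourier transform -/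
noncomputable def GH (q Q α : ℝ) : ℝ := (Real.exp (-(π * q * α ^ 2)) - Real.exp (-(π * Q * α ^ 2))) ^ 2

theorem GH_nonneg (q Q α : ℝ) : 0 ≤ GH q Q α := sq_nonneg _

theorem GH_cont (q Q : ℝ) : Continuous (GH q Q) := by
  unfold GH
  fun_prop

theorem GH_eq (q Q α : ℝ) : GH q Q α = Real.exp (-(π * (q + q) * α ^ 2)) - 2 * Real.exp (-(π * (q + Q) * α ^ 2)) +
    Real.exp (-(π * (Q + Q) * α ^ 2)) := by
  unfold GH
  rw [sub_sq, ← Real.exp_nat_mul, ← Real.exp_nat_mul, mul_assoc 2, ← Real.exp_add]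
  congr 2
  · congr 1
    push_cast
    ring
  · congr 2
    ring
  · push_cast
    ring

theorem ex_int (q : ℝ) (hq : 0 < q) : Integrable (fun α : ℝ => Real.exp (-(π * q * α ^ 2))) := by
  have h1 : Integrable (fun x : ℝ => Real.exp (-(π * q) * x ^ 2)) := integrable_exp_neg_mul_sq (by positivity)
  refine h1.congr (Eventually.of_forall fun x => ?_)
  simp only
  congr 1
  ring

theorem exe_int (q : ℝ) (hq : 0 < q) (t : ℝ) :
    Integrable (fun α : ℝ => ((Real.exp (-(π * q * α ^ 2)) : ℝ) : ℂ) * e (α * t)) := by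
  refine (ex_int q hq).mono' ?_ (Eventually.of_forall fun α => ?_)
  · have := e_cont
    fun_prop
  · rw [norm_mul, e_norm, mul_one, Complex.norm_real, Real.norm_eq_abs, abs_of_pos (Real.exp_pos _)]

theorem GH_int (q Q : ℝ) (hq : 0 < q) (hQ : 0 < Q) : Integrable (GH q Q) := by
  have h1 := ((ex_int (q + q) (by positivity)).sub ((ex_int (q + Q) (by positivity)).const_mul 2)).add
    (ex_int (Q + Q) (by positivity))
  refine h1.congr (Eventually.of_forall fun α => ?_)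
  simp only [Pi.add_apply, Pi.sub_apply]
  exact (GH_eq q Q α).symm

theorem gd_prod (q Q u v τ : ℝ) : gd q Q (u - τ) * gd q Q (v - τ) =
    gq q (u - τ) * gq q (v - τ) - gq q (u - τ) * gq Q (v - τ) - gq Q (u - τ) * gq q (v - τ) +
      gq Q (u - τ) * gq Q (v - τ) := by
  unfold gd
  ring

theorem gd_int (q Q : ℝ) (hq : 0 < q) (hQ : 0 < Q) (u v : ℝ) :
    Integrable (fun τ => gd q Q (u - τ) * gd q Q (v - τ)) := by
  simp_rw [gd_prod]
  exact (((gq_int q q hq hq u v).sub (gq_int q Q hq hQ u v)).sub (gq_int Q q hQ hq u v)).add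
    (gq_int Q Q hQ hQ u v)

theorem gd_corr (q Q : ℝ) (hq : 0 < q) (hQ : 0 < Q) (u v : ℝ) :
    ∫ τ, gd q Q (u - τ) * gd q Q (v - τ) = gq (q + q) (u - v) - 2 * gq (q + Q) (u - v) + gq (Q + Q) (u - v) := by
  simp_rw [gd_prod]
  have i1 := gq_int q q hq hq u v
  have i2 := gq_int q Q hq hQ u v
  have i3 := gq_int Q q hQ hq u v
  have i4 := gq_int Q Q hQ hQ u v
  have i5 : Integrable (fun τ => gq q (u - τ) * gq q (v - τ) - gq q (u - τ) * gq Q (v - τ)) := i1.sub i2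
  have i6 : Integrable (fun τ => gq q (u - τ) * gq q (v - τ) - gq q (u - τ) * gq Q (v - τ) -
    gq Q (u - τ) * gq q (v - τ)) := i5.sub i3
  rw [integral_add i6 i4, integral_sub i5 i3, integral_sub i1 i2,
    gq_corr q q hq hq, gq_corr q Q hq hQ, gq_corr Q q hQ hq, gq_corr Q Q hQ hQ, add_comm Q q]
  ring

theorem gd_four (q Q : ℝ) (hq : 0 < q) (hQ : 0 < Q) (t : ℝ) :
    ∫ α : ℝ, ((GH q Q α : ℝ) : ℂ) * e (α * t) =
      ((gq (q + q) t - 2 * gq (q + Q) t + gq (Q + Q) t : ℝ) : ℂ) := by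
  have h1 : ∀ α : ℝ, ((GH q Q α : ℝ) : ℂ) * e (α * t) =
      ((Real.exp (-(π * (q + q) * α ^ 2)) : ℝ) : ℂ) * e (α * t) -
        2 * (((Real.exp (-(π * (q + Q) * α ^ 2)) : ℝ) : ℂ) * e (α * t)) +
        ((Real.exp (-(π * (Q + Q) * α ^ 2)) : ℝ) : ℂ) * e (α * t) := by
    intro α
    rw [GH_eq]
    push_cast
    ring
  simp_rw [h1]
  have i1 := exe_int (q + q) (by positivity) t
  have i2 : Integrable (fun α : ℝ => 2 * (((Real.exp (-(π * (q + Q) * α ^ 2)) : ℝ) : ℂ) * e (α * t))) :=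
    (exe_int (q + Q) (by positivity) t).const_mul 2
  have i3 := exe_int (Q + Q) (by positivity) t
  have i4 : Integrable (fun α : ℝ => ((Real.exp (-(π * (q + q) * α ^ 2)) : ℝ) : ℂ) * e (α * t) -
    2 * (((Real.exp (-(π * (q + Q) * α ^ 2)) : ℝ) : ℂ) * e (α * t))) := i1.sub i2
  rw [integral_add i4 i3, integral_sub i1 i2, integral_const_mul, gq_four _ (by positivity),
    gq_four _ (by positivity), gq_four _ (by positivity)]
  push_cast
  ring

theorem GHS_int {ι : Type*} (X : Finset ι) (u : ι → ℝ) (q Q : ℝ) (hq : 0 < q) (hQ : 0 < Q) :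
    Integrable (fun α : ℝ => GH q Q α * ‖∑ x ∈ X, e (α * u x)‖ ^ 2) := by
  have hc : Continuous (fun α : ℝ => ‖∑ x ∈ X, e (α * u x)‖ ^ 2) := by
    apply Continuous.pow
    apply Continuous.norm
    apply continuous_finsetSum
    intro x _
    exact e_cont.comp (by fun_prop)
  refine ((GH_int q Q hq hQ).mul_const ((X.card : ℝ) ^ 2)).mono'
    ((GH_cont q Q).mul hc).aestronglyMeasurable (Eventually.of_forall fun α => ?_)
  rw [Real.norm_eq_abs, abs_of_nonneg (mul_nonneg (GH_nonneg _ _ _) (by positivity))]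
  apply mul_le_mul_of_nonneg_left _ (GH_nonneg _ _ _)
  apply pow_le_pow_left₀ (norm_nonneg _)
  refine (norm_sum_le _ _).trans ?_
  simp_rw [e_norm]
  rw [Finset.sum_const, nsmul_eq_mul, mul_one]

/-- Plancherel for a finite sum of translated Gaussians -/
theorem plan {ι : Type*} (X : Finset ι) (u : ι → ℝ) (q Q : ℝ) (hq : 0 < q) (hQ : 0 < Q) :
    Integrable (fun τ => (∑ x ∈ X, gd q Q (u x - τ)) ^ 2) ∧
    ∫ τ, (∑ x ∈ X, gd q Q (u x - τ)) ^ 2 = ∫ α : ℝ, GH q Q α * ‖∑ x ∈ X, e (α * u x)‖ ^ 2 := by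
  have h1 : ∀ τ, (∑ x ∈ X, gd q Q (u x - τ)) ^ 2 = ∑ x ∈ X, ∑ y ∈ X, gd q Q (u x - τ) * gd q Q (u y - τ) := by
    intro τ
    rw [sq, Finset.sum_mul_sum]
  simp_rw [h1]
  refine ⟨integrable_finsetSum _ fun x _ => integrable_finsetSum _ fun y _ => gd_int q Q hq hQ _ _, ?_⟩
  rw [integral_finsetSum _ fun x _ => integrable_finsetSum _ fun y _ => gd_int q Q hq hQ _ _]
  have h2 : ∀ x ∈ X, ∫ τ, ∑ y ∈ X, gd q Q (u x - τ) * gd q Q (u y - τ) =
      ∑ y ∈ X, (gq (q + q) (u x - u y) - 2 * gq (q + Q) (u x - u y) + gq (Q + Q) (u x - u y)) := by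
    intro x _
    rw [integral_finsetSum _ fun y _ => gd_int q Q hq hQ _ _]
    exact Finset.sum_congr rfl fun y _ => gd_corr q Q hq hQ _ _
  rw [Finset.sum_congr rfl h2]
  have h3 : ((∫ α : ℝ, GH q Q α * ‖∑ x ∈ X, e (α * u x)‖ ^ 2 : ℝ) : ℂ) =
      ∑ x ∈ X, ∑ y ∈ X, ∫ α : ℝ, ((GH q Q α : ℝ) : ℂ) * e (α * (u x - u y)) := by
    rw [← integral_complex_ofReal]
    have h4 : ∀ α : ℝ, ((GH q Q α * ‖∑ x ∈ X, e (α * u x)‖ ^ 2 : ℝ) : ℂ) =
        ∑ x ∈ X, ∑ y ∈ X, ((GH q Q α : ℝ) : ℂ) * e (α * (u x - u y)) := by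
      intro α
      rw [Complex.ofReal_mul, sq_e, Finset.mul_sum]
      apply Finset.sum_congr rfl
      intro x _
      rw [Finset.mul_sum]
      apply Finset.sum_congr rfl
      intro y _
      rw [mul_sub]
    simp_rw [h4]
    have hi : ∀ t : ℝ, Integrable (fun α : ℝ => ((GH q Q α : ℝ) : ℂ) * e (α * t)) := by
      intro t
      refine (GH_int q Q hq hQ).mono' ?_ (Eventually.of_forall fun α => ?_)
      · have h5 := e_cont
        have h6 := GH_cont q Q
        fun_prop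
      · rw [norm_mul, e_norm, mul_one, Complex.norm_real, Real.norm_eq_abs, abs_of_nonneg (GH_nonneg _ _ _)]
    rw [integral_finsetSum _ fun x _ => integrable_finsetSum _ fun y _ => hi _]
    apply Finset.sum_congr rfl
    intro x _
    rw [integral_finsetSum _ fun y _ => hi _]
  have h5 : ((∑ x ∈ X, ∑ y ∈ X, (gq (q + q) (u x - u y) - 2 * gq (q + Q) (u x - u y) + gq (Q + Q) (u x - u y)) : ℝ) : ℂ) =
      ((∫ α : ℝ, GH q Q α * ‖∑ x ∈ X, e (α * u x)‖ ^ 2 : ℝ) : ℂ) := by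
    rw [h3, Complex.ofReal_sum]
    apply Finset.sum_congr rfl
    intro x _
    rw [Complex.ofReal_sum]
    apply Finset.sum_congr rfl
    intro y _
    rw [gd_four q Q hq hQ]
  exact_mod_cast h5

end Pool.Agent.Y867.WC
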