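import Pool.Agent.Y867.WC.GaB

/-! # The mean square over the box of coefficients -/

set_option autoImplicit false

open MeasureTheory Filter Finset
open scoped ENNReal Real

namespace Pool.Agent.Y867.WC

open Pool.Agent.W928.MW (e e_add e_norm e_cont)
open Pool.Agent.Y867.WR (sq_e e_int_le harm QB QB_meas mem_QB)

/-- the diagonal form -/
noncomputable def F (j n : ℕ) (θ : Fin n → ℝ) (x : Fin n → ℤ) : ℝ := ∑ i, θ i * (x i : ℝ) ^ (j + 2)

/-- the box of variables -/
noncomputable def BX (n P C : ℕ) : Finset (Fin n → ℤ) := Fintype.piFinset (fun _ => XX P C)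

/-- mean square of the difference of the smoothed counts -/
noncomputable def J (j n P C : ℕ) (q Q : ℝ) (θ : Fin n → ℝ) : ℝ :=
  ∫ τ, (∑ x ∈ BX n P C, gd q Q (F j n θ x - τ)) ^ 2

theorem e_zero : e 0 = 1 := by
  unfold Pool.Agent.W928.MW.e
  simp

theorem e_sum {ι : Type*} (s : Finset ι) (g : ι → ℝ) : e (∑ i ∈ s, g i) = ∏ i ∈ s, e (g i) := by
  classical
  induction s using Finset.induction_on with
  | empty => rw [Finset.sum_empty, Finset.prod_empty, e_zero]
  | insert a s ha ih => rw [Finset.sum_insert ha, Finset.prod_insert ha, e_add, ih]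

theorem S_prod (j n P C : ℕ) (θ : Fin n → ℝ) (α : ℝ) :
    ∑ x ∈ BX n P C, e (α * F j n θ x) = ∏ i, ∑ x ∈ XX P C, e (α * (θ i * (x : ℝ) ^ (j + 2))) := by
  unfold BX
  rw [Finset.prod_univ_sum]
  apply Finset.sum_congr rfl
  intro x _
  unfold F
  rw [Finset.mul_sum, e_sum]

theorem msq1 (j n P C : ℕ) (A q Q : ℝ) (hA : 0 ≤ A) (hq : 0 < q) (hQ : 0 < Q) :
    ∫⁻ θ in QB n A, ENNReal.ofReal (J j n P C q Q θ) = ∫⁻ α : ℝ, ENNReal.ofReal (GH q Q α * (M j P C A α) ^ n) := by
  have h1 : ∀ θ : Fin n → ℝ, ENNReal.ofReal (J j n P C q Q θ) =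
      ∫⁻ α : ℝ, ENNReal.ofReal (GH q Q α * ∏ i, ‖∑ x ∈ XX P C, e (α * (θ i * (x : ℝ) ^ (j + 2)))‖ ^ 2) := by
    intro θ
    unfold J
    rw [(plan (BX n P C) (F j n θ) q Q hq hQ).2,
      ofReal_integral_eq_lintegral_ofReal (GHS_int (BX n P C) (F j n θ) q Q hq hQ)
        (Eventually.of_forall fun α => mul_nonneg (GH_nonneg _ _ _) (by positivity))]
    apply lintegral_congr
    intro α
    rw [S_prod, norm_prod, Finset.prod_pow]
  simp_rw [h1]
  have hc : Continuous (fun p : (Fin n → ℝ) × ℝ => GH q Q p.2 *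
      ∏ i, ‖∑ x ∈ XX P C, e (p.2 * (p.1 i * (x : ℝ) ^ (j + 2)))‖ ^ 2) := by
    apply ((GH_cont q Q).comp continuous_snd).mul
    apply continuous_finsetProd
    intro i _
    exact (T_cont j P C).comp (continuous_snd.prodMk ((continuous_apply i).comp continuous_fst))
  rw [lintegral_lintegral_swap (hc.measurable.ennreal_ofReal.aemeasurable)]
  apply lintegral_congr
  intro α
  have hcα := T_cont' j P C α
  have h2 := box_prod n A hA _ hcα (fun t => by positivity)
  simp_rw [ENNReal.ofReal_mul (GH_nonneg q Q α)]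
  rw [lintegral_const_mul' _ _ ENNReal.ofReal_ne_top, h2]
  rfl

end Pool.Agent.Y867.WC
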