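import Pool.Agent.Y867.WC.GaB

/-! # Pointwise bound -/

set_option autoImplicit false

open MeasureTheory Filter Finset
open scoped ENNReal Real

namespace Pool.Agent.Y867.WC

open Pool.Agent.W928.MW (e e_add e_norm e_cont)
open Pool.Agent.Y867.WR (sq_e e_int_le harm QB QB_meas mem_QB)

theorem GH_le1 (q Q α : ℝ) (hqQ : q ≤ Q) : GH q Q α ≤ Real.exp (-(π * (q + q) * α ^ 2)) := by
  have h1 : Real.exp (-(π * Q * α ^ 2)) ≤ Real.exp (-(π * q * α ^ 2)) := by
    apply Real.exp_le_exp.mpr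
    have := Real.pi_pos
    have h2 : π * q * α ^ 2 ≤ π * Q * α ^ 2 := by gcongr
    linarith
  have h3 : 0 < Real.exp (-(π * Q * α ^ 2)) := Real.exp_pos _
  have h4 : Real.exp (-(π * (q + q) * α ^ 2)) = Real.exp (-(π * q * α ^ 2)) ^ 2 := by
    rw [← Real.exp_nat_mul]
    congr 1
    push_cast
    ring
  rw [h4]
  unfold GH
  exact pow_le_pow_left₀ (by linarith) (by linarith) 2

theorem GH_le2 (q Q α : ℝ) (hq : 0 ≤ q) (hqQ : q ≤ Q) : GH q Q α ≤ (π * Q * α ^ 2) ^ 2 := by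
  have hpi := Real.pi_pos
  have h1 : Real.exp (-(π * Q * α ^ 2)) ≤ Real.exp (-(π * q * α ^ 2)) := by
    apply Real.exp_le_exp.mpr
    have h2 : π * q * α ^ 2 ≤ π * Q * α ^ 2 := by gcongr
    linarith
  have h3 : Real.exp (-(π * q * α ^ 2)) ≤ 1 := by
    apply Real.exp_le_one_iff.mpr
    have : 0 ≤ π * q * α ^ 2 := by positivity
    linarith
  have h4 := Real.add_one_le_exp (-(π * Q * α ^ 2))
  unfold GH
  exact pow_le_pow_left₀ (by linarith) (by linarith) 2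

theorem alg1 (j : ℕ) (M K P w : ℝ) (hM0 : 0 ≤ M) (hK : 0 ≤ K) (hw : 0 < w) (h1 : M ≤ K * (P / w))
    (h2 : M ≤ K * P ^ 2) : M ^ (j + 3) ≤ K ^ (j + 3) * (P ^ (2 * j + 3) / w ^ 3) := by
  have h3 : M ^ (j + 3) = M ^ j * M ^ 3 := pow_add M j 3
  have h4 : (K * P ^ 2) ^ j * (K * (P / w)) ^ 3 = K ^ (j + 3) * (P ^ (2 * j + 3) / w ^ 3) := by
    rw [mul_pow K (P ^ 2) j, ← pow_mul, mul_pow K (P / w) 3, div_pow, pow_add K j 3, pow_add P (2 * j) 3]
    ring
  rw [h3, ← h4]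
  have h5 : 0 ≤ K * P ^ 2 := by positivity
  exact mul_le_mul (pow_le_pow_left₀ hM0 h2 _) (pow_le_pow_left₀ hM0 h1 _) (pow_nonneg hM0 _) (pow_nonneg h5 _)

theorem alg2 (c D R w : ℝ) (hw : 0 < w) (h : w ≤ 1) (hc : 0 ≤ c) (hD : 0 ≤ D) (hR : 0 ≤ R) :
    (c * w ^ 4) * (D * (R / w ^ 3)) ≤ D * (c * R) := by
  have h1 : (c * w ^ 4) * (D * (R / w ^ 3)) = D * (c * R) * w := by
    field_simp
  rw [h1]
  exact mul_le_of_le_one_right (by positivity) h

theorem pt (j P C : ℕ) (A CH q : ℝ) (hP : 1 ≤ P) (hC : 1 ≤ C) (hA : 1 ≤ A) (hCH : 1 ≤ CH) (hq : 0 < q) (hq1 : q ≤ 1)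
    (α : ℝ) (hα : α ≠ 0) :
    GH q ((CH * (P : ℝ) ^ (j + 1)) ^ 2) α * (M j P C A α) ^ (j + 3) ≤
      (4 * A * C ^ 2 * (1 + Real.log (C * P))) ^ (j + 3) * ((P : ℝ) ^ (j + 3) * Real.exp (-(π * (q + q) * α ^ 2)) +
        (if |α| * (P : ℝ) ^ (j + 1) ≤ 1 then π ^ 2 * CH ^ 4 * (P : ℝ) ^ (2 * j + 3) else 0)) := by
  have hP' : (1 : ℝ) ≤ P := by exact_mod_cast hP
  have hC' : (1 : ℝ) ≤ C := by exact_mod_cast hC
  have hl : 0 ≤ Real.log (C * P) := Real.log_nonneg (one_le_mul_of_one_le_of_one_le hC' hP')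
  set l := 1 + Real.log (C * P) with hl_def
  have hl1 : 1 ≤ l := by linarith
  have hα' : 0 < |α| := abs_pos.mpr hα
  have hM0 := M_nonneg j P C A α (by linarith)
  have hM1 := M_le1 j P C A α hP hC (by linarith) hα
  have hM2 := M_le2 j P C A α hP (by linarith : (0 : ℝ) ≤ A)
  have hPj : 1 ≤ (P : ℝ) ^ (j + 1) := one_le_pow₀ hP'
  set w := |α| * (P : ℝ) ^ (j + 1) with hw
  have hw0 : 0 < w := by positivity
  have hqQ : q ≤ (CH * (P : ℝ) ^ (j + 1)) ^ 2 := by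
    refine hq1.trans ?_
    exact one_le_pow₀ (one_le_mul_of_one_le_of_one_le hCH hPj)
  have hpi := Real.pi_pos
  have hCC : (C : ℝ) ≤ (C : ℝ) ^ 2 := by
    rw [sq]
    exact le_mul_of_one_le_left (by linarith) hC'
  rw [← hl_def] at hM1
  by_cases h : w ≤ 1
  · rw [if_pos h]
    have h1 : M j P C A α ≤ (4 * A * C ^ 2 * l) * (P / w) := by
      refine hM1.trans ?_
      have h2 : 2 * A + 2 * l / w ≤ 4 * A * l / w := by
        rw [← sub_nonneg]
        have h3 : 4 * A * l / w - (2 * A + 2 * l / w) = (4 * A * l - 2 * A * w - 2 * l) / w := by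
          field_simp
          ring
        rw [h3]
        apply div_nonneg _ hw0.le
        have h6 : A * w ≤ A * l := mul_le_mul_of_nonneg_left (h.trans hl1) (by linarith)
        have h7 : 1 * l ≤ A * l := mul_le_mul_of_nonneg_right hA (by linarith)
        linarith
      calc (C * P : ℝ) * (2 * A + 2 * l / w) ≤ (C * P : ℝ) * (4 * A * l / w) :=
            mul_le_mul_of_nonneg_left h2 (by positivity)
        _ = (4 * A * C * l) * (P / w) := by ring
        _ ≤ (4 * A * C ^ 2 * l) * (P / w) := by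
            apply mul_le_mul_of_nonneg_right _ (by positivity)
            apply mul_le_mul_of_nonneg_right _ (by linarith)
            apply mul_le_mul_of_nonneg_left hCC (by linarith)
    have h2 : M j P C A α ≤ (4 * A * C ^ 2 * l) * P ^ 2 := by
      refine hM2.trans ?_
      have h3 : 0 ≤ A * C ^ 2 * (P : ℝ) ^ 2 := by positivity
      calc 2 * A * (C * P : ℝ) ^ 2 = 2 * (A * C ^ 2 * (P : ℝ) ^ 2) := by ring
        _ ≤ 4 * l * (A * C ^ 2 * (P : ℝ) ^ 2) := mul_le_mul_of_nonneg_right (by linarith) h3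
        _ = _ := by ring
    have hK : 0 ≤ 4 * A * (C : ℝ) ^ 2 * l := by positivity
    have h3 := alg1 j (M j P C A α) (4 * A * C ^ 2 * l) P w hM0 hK hw0 h1 h2
    have h4 : GH q ((CH * (P : ℝ) ^ (j + 1)) ^ 2) α ≤ π ^ 2 * CH ^ 4 * w ^ 4 := by
      refine (GH_le2 _ _ α hq.le hqQ).trans (le_of_eq ?_)
      have h5 : α ^ 2 = |α| ^ 2 := (sq_abs α).symm
      rw [h5, hw]
      ring
    have h5 : GH q ((CH * (P : ℝ) ^ (j + 1)) ^ 2) α * (M j P C A α) ^ (j + 3) ≤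
        (π ^ 2 * CH ^ 4 * w ^ 4) * ((4 * A * C ^ 2 * l) ^ (j + 3) * ((P : ℝ) ^ (2 * j + 3) / w ^ 3)) :=
      mul_le_mul h4 h3 (pow_nonneg hM0 _) (by positivity)
    have h6 := alg2 (π ^ 2 * CH ^ 4) ((4 * A * C ^ 2 * l) ^ (j + 3)) ((P : ℝ) ^ (2 * j + 3)) w hw0 h (by positivity)
      (pow_nonneg hK _) (by positivity)
    refine (h5.trans h6).trans ?_
    apply mul_le_mul_of_nonneg_left _ (pow_nonneg hK _)
    have h7 : 0 ≤ (P : ℝ) ^ (j + 3) * Real.exp (-(π * (q + q) * α ^ 2)) := by positivity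
    linarith
  · rw [if_neg h, add_zero]
    push Not at h
    have h1 : M j P C A α ≤ (4 * A * C ^ 2 * l) * P := by
      refine hM1.trans ?_
      have h2 : 2 * l / w ≤ 2 * l := div_le_self (by linarith) h.le
      have h3 : 2 * A + 2 * l / w ≤ 4 * A * l := by
        have h6 : A * 1 ≤ A * l := mul_le_mul_of_nonneg_left hl1 (by linarith)
        have h7 : 1 * l ≤ A * l := mul_le_mul_of_nonneg_right hA (by linarith)
        linarith
      calc (C * P : ℝ) * (2 * A + 2 * l / w) ≤ (C * P : ℝ) * (4 * A * l) := mul_le_mul_of_nonneg_left h3 (by positivity)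
        _ = (4 * A * C * l) * P := by ring
        _ ≤ (4 * A * C ^ 2 * l) * P := by
            apply mul_le_mul_of_nonneg_right _ (by positivity)
            apply mul_le_mul_of_nonneg_right _ (by linarith)
            apply mul_le_mul_of_nonneg_left hCC (by linarith)
    have h2 : (M j P C A α) ^ (j + 3) ≤ (4 * A * C ^ 2 * l) ^ (j + 3) * (P : ℝ) ^ (j + 3) := by
      rw [← mul_pow]
      exact pow_le_pow_left₀ hM0 h1 _
    calc GH q ((CH * (P : ℝ) ^ (j + 1)) ^ 2) α * (M j P C A α) ^ (j + 3) ≤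
          Real.exp (-(π * (q + q) * α ^ 2)) * ((4 * A * C ^ 2 * l) ^ (j + 3) * (P : ℝ) ^ (j + 3)) :=
          mul_le_mul (GH_le1 _ _ α hqQ) h2 (pow_nonneg hM0 _) (Real.exp_pos _).le
      _ = _ := by ring

end Pool.Agent.Y867.WC
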