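import Pool.Agent.Y867.WC.GaC
import Pool.Agent.Y867.WC.GaD

/-! # The mean square over the box of coefficients -/

set_option autoImplicit false

open MeasureTheory Filter Finset
open scoped ENNReal Real

namespace Pool.Agent.Y867.WC

open Pool.Agent.W928.MW (e e_add e_norm e_cont)
open Pool.Agent.Y867.WR (sq_e e_int_le harm QB QB_meas mem_QB)

/-- the mean square bound -/
theorem msq2 (j P C : ℕ) (A CH q : ℝ) (hP : 1 ≤ P) (hC : 1 ≤ C) (hA : 1 ≤ A) (hCH : 1 ≤ CH) (hq : 0 < q) (hq1 : q ≤ 1) :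
    ∫⁻ θ in QB (j + 3) A, ENNReal.ofReal (J j (j + 3) P C q ((CH * (P : ℝ) ^ (j + 1)) ^ 2) θ) ≤
      ENNReal.ofReal ((4 * A * C ^ 2 * (1 + Real.log (C * P))) ^ (j + 3) * (1 + 2 * π ^ 2 * CH ^ 4) *
        ((P : ℝ) ^ (j + 3) / √q)) := by
  have hP' : (1 : ℝ) ≤ P := by exact_mod_cast hP
  have hC' : (1 : ℝ) ≤ C := by exact_mod_cast hC
  have hl : 0 ≤ Real.log (C * P) := Real.log_nonneg (one_le_mul_of_one_le_of_one_le hC' hP')
  have hpi := Real.pi_pos
  have hPj : 1 ≤ (P : ℝ) ^ (j + 1) := one_le_pow₀ hP'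
  rw [msq1 j (j + 3) P C A q _ (by linarith) hq (by positivity)]
  set D := (4 * A * C ^ 2 * (1 + Real.log (C * P))) ^ (j + 3) with hD
  have hD0 : 0 ≤ D := by positivity
  set g : ℝ → ℝ := fun α => D * ((P : ℝ) ^ (j + 3) * Real.exp (-(π * (q + q) * α ^ 2)) +
        (if |α| * (P : ℝ) ^ (j + 1) ≤ 1 then π ^ 2 * CH ^ 4 * (P : ℝ) ^ (2 * j + 3) else 0)) with hg
  have h0 : ∀ᵐ α : ℝ, α ≠ 0 := by
    rw [ae_iff]
    simp
  have h1 : ∫⁻ α : ℝ, ENNReal.ofReal (GH q ((CH * (P : ℝ) ^ (j + 1)) ^ 2) α * (M j P C A α) ^ (j + 3)) ≤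
      ∫⁻ α : ℝ, ENNReal.ofReal (g α) := by
    apply lintegral_mono_ae
    filter_upwards [h0] with α hα
    exact ENNReal.ofReal_le_ofReal (pt j P C A CH q hP hC hA hCH hq hq1 α hα)
  refine h1.trans ?_
  set r : ℝ := 1 / (P : ℝ) ^ (j + 1) with hr
  have hr0 : 0 < r := by positivity
  have hind : ∀ α : ℝ, (if |α| * (P : ℝ) ^ (j + 1) ≤ 1 then π ^ 2 * CH ^ 4 * (P : ℝ) ^ (2 * j + 3) else 0) =
      (Set.Icc (-r) r).indicator (fun _ => π ^ 2 * CH ^ 4 * (P : ℝ) ^ (2 * j + 3)) α := by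
    intro α
    rw [Set.indicator_apply]
    apply if_congr _ rfl rfl
    rw [Set.mem_Icc, ← abs_le, hr, le_div_iff₀ (by positivity)]
  have i1 : Integrable (fun α : ℝ => (P : ℝ) ^ (j + 3) * Real.exp (-(π * (q + q) * α ^ 2))) :=
    (ex_int (q + q) (by positivity)).const_mul _
  have i2 : Integrable ((Set.Icc (-r) r).indicator (fun _ : ℝ => π ^ 2 * CH ^ 4 * (P : ℝ) ^ (2 * j + 3))) := by
    rw [integrable_indicator_iff measurableSet_Icc]
    exact integrableOn_const (by simp)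
  have i3 : Integrable g := by
    have h2 := (i1.add i2).const_mul D
    refine h2.congr (Eventually.of_forall fun α => ?_)
    simp only [Pi.add_apply, hg, hind]
  have hg0 : ∀ α, 0 ≤ g α := by
    intro α
    simp only [hg]
    split_ifs <;> positivity
  rw [← ofReal_integral_eq_lintegral_ofReal i3 (Eventually.of_forall hg0)]
  apply ENNReal.ofReal_le_ofReal
  have h2 : ∫ α, g α = D * ((P : ℝ) ^ (j + 3) * √(1 / (q + q)) + 2 * r * (π ^ 2 * CH ^ 4 * (P : ℝ) ^ (2 * j + 3))) := by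
    simp only [hg]
    rw [integral_const_mul]
    simp_rw [hind]
    rw [integral_add i1 i2, integral_const_mul, integral_indicator measurableSet_Icc, setIntegral_const]
    congr 2
    · congr 1
      have h3 : ∫ α : ℝ, Real.exp (-(π * (q + q) * α ^ 2)) = ∫ α : ℝ, Real.exp (-(π * (q + q)) * α ^ 2) := by
        congr 1
        funext α
        congr 1
        ring
      rw [h3, integral_gaussian]
      congr 1
      field_simp
    · rw [smul_eq_mul, measureReal_def, Real.volume_Icc, ENNReal.toReal_ofReal (by linarith)]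
      ring
  rw [h2]
  have h3 : √(1 / (q + q)) ≤ 1 / √q := by
    rw [Real.sqrt_div zero_le_one, Real.sqrt_one]
    apply one_div_le_one_div_of_le (Real.sqrt_pos.mpr hq)
    exact Real.sqrt_le_sqrt (by linarith)
  have h4 : r * (P : ℝ) ^ (2 * j + 3) = (P : ℝ) ^ (j + 2) := by
    rw [hr, show 2 * j + 3 = (j + 1) + (j + 2) by ring, pow_add (P : ℝ) (j + 1) (j + 2), one_div, ← mul_assoc,
      inv_mul_cancel₀ (by positivity), one_mul]
  have h5 : (P : ℝ) ^ (j + 2) ≤ (P : ℝ) ^ (j + 3) / √q := by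
    have h6 : √q ≤ 1 := Real.sqrt_le_one.mpr hq1
    calc (P : ℝ) ^ (j + 2) ≤ (P : ℝ) ^ (j + 3) := pow_le_pow_right₀ hP' (by omega)
      _ ≤ (P : ℝ) ^ (j + 3) / √q := by
          rw [le_div_iff₀ (Real.sqrt_pos.mpr hq)]
          exact mul_le_of_le_one_right (by positivity) h6
  rw [mul_assoc D]
  apply mul_le_mul_of_nonneg_left _ hD0
  calc (P : ℝ) ^ (j + 3) * √(1 / (q + q)) + 2 * r * (π ^ 2 * CH ^ 4 * (P : ℝ) ^ (2 * j + 3))
      = (P : ℝ) ^ (j + 3) * √(1 / (q + q)) + 2 * π ^ 2 * CH ^ 4 * (r * (P : ℝ) ^ (2 * j + 3)) := by ring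
    _ ≤ (P : ℝ) ^ (j + 3) * (1 / √q) + 2 * π ^ 2 * CH ^ 4 * ((P : ℝ) ^ (j + 3) / √q) := by
        rw [h4]
        exact add_le_add (mul_le_mul_of_nonneg_left h3 (by positivity)) (mul_le_mul_of_nonneg_left h5 (by positivity))
    _ = _ := by ring

end Pool.Agent.Y867.WC
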