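import Pool.Agent.Y867.WC.GaE

/-! # The bad sets -/

set_option autoImplicit false

open MeasureTheory Filter Finset
open scoped ENNReal Real

namespace Pool.Agent.Y867.WC

open Pool.Agent.Y867.WR (QB QB_meas mem_QB)

theorem pow_succ_sub (x : ℝ) (hx : 0 ≤ x) (m : ℕ) : (x + 1) ^ (m + 1) - x ^ (m + 1) ≤ (m + 1) * (x + 1) ^ m := by
  induction m with
  | zero => simp
  | succ m ih =>
    have h1 : x ^ (m + 1) ≤ (x + 1) ^ (m + 1) := pow_le_pow_left₀ hx (by linarith) _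
    have h2 : (x + 1) ^ (m + 1 + 1) - x ^ (m + 1 + 1) = (x + 1) * ((x + 1) ^ (m + 1) - x ^ (m + 1)) + x ^ (m + 1) := by
      ring
    rw [h2]
    have h3 : (x + 1) * ((x + 1) ^ (m + 1) - x ^ (m + 1)) ≤ (x + 1) * ((m + 1) * (x + 1) ^ m) :=
      mul_le_mul_of_nonneg_left ih (by linarith)
    have h4 : (x + 1) * (((m : ℝ) + 1) * (x + 1) ^ m) = (m + 1) * (x + 1) ^ (m + 1) := by ring
    push_cast
    linarith

/-- a `k`-th power close to a given number -/
theorem root (j P C : ℕ) (A u ρ V : ℝ) (hP : 1 ≤ P) (hC : 1 ≤ C) (hu : 0 < u) (huA : u ≤ A)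
    (h1 : u * (P : ℝ) ^ (j + 2) ≤ ρ) (h2 : ρ ≤ V * (P : ℝ) ^ (j + 2)) (h3 : V ≤ u * C) :
    ∃ x : ℤ, x ∈ XX P C ∧ |u * (x : ℝ) ^ (j + 2) - ρ| ≤ (A * (j + 2) * (C : ℝ) ^ (j + 1)) * (P : ℝ) ^ (j + 1) := by
  classical
  have hP' : (1 : ℝ) ≤ P := by exact_mod_cast hP
  have hC' : (1 : ℝ) ≤ C := by exact_mod_cast hC
  have hPC : P ≤ C * P := Nat.le_mul_of_pos_left P hC
  set x := Nat.findGreatest (fun x : ℕ => u * (x : ℝ) ^ (j + 2) ≤ ρ) (C * P) with hx
  have hx1 : u * (x : ℝ) ^ (j + 2) ≤ ρ := by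
    have := Nat.findGreatest_spec (P := fun x : ℕ => u * (x : ℝ) ^ (j + 2) ≤ ρ) hPC h1
    exact this
  have hx2 : P ≤ x := Nat.le_findGreatest hPC h1
  have hx3 : x ≤ C * P := Nat.findGreatest_le _
  refine ⟨(x : ℤ), ?_, ?_⟩
  · unfold XX
    rw [Finset.mem_Icc]
    exact ⟨by exact_mod_cast hx2, by exact_mod_cast hx3⟩
  · have hx4 : ((x : ℤ) : ℝ) = (x : ℝ) := by push_cast; ring
    rw [hx4, abs_sub_comm, abs_of_nonneg (by linarith)]
    have hnn : 0 ≤ (A * (j + 2) * (C : ℝ) ^ (j + 1)) * (P : ℝ) ^ (j + 1) := by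
      have : 0 ≤ A := hu.le.trans huA
      positivity
    rcases Nat.lt_or_ge x (C * P) with h | h
    · have h4 : ρ < u * ((x + 1 : ℕ) : ℝ) ^ (j + 2) := by
        have h5 := Nat.findGreatest_is_greatest (P := fun x : ℕ => u * (x : ℝ) ^ (j + 2) ≤ ρ) (n := C * P)
          (k := x + 1) (by omega) (by omega)
        exact not_le.mp h5
      push_cast at h4
      have h6 := pow_succ_sub (x : ℝ) (by positivity) (j + 1)
      have h7 : ((x : ℝ) + 1) ^ (j + 1) ≤ ((C : ℝ) * P) ^ (j + 1) := by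
        apply pow_le_pow_left₀ (by positivity)
        have : x + 1 ≤ C * P := h
        exact_mod_cast this
      have h8 : u * (((x : ℝ) + 1) ^ (j + 1 + 1) - (x : ℝ) ^ (j + 1 + 1)) ≤ A * ((j + 2) * ((C : ℝ) * P) ^ (j + 1)) := by
        apply mul_le_mul huA _ _ (hu.le.trans huA)
        · refine h6.trans ?_
          push_cast
          have h9 : ((j : ℝ) + 1 + 1) * ((x : ℝ) + 1) ^ (j + 1) ≤ ((j : ℝ) + 1 + 1) * ((C : ℝ) * P) ^ (j + 1) :=
            mul_le_mul_of_nonneg_left h7 (by positivity)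
          linarith
        · rw [sub_nonneg]
          exact pow_le_pow_left₀ (by positivity) (by linarith) _
      calc ρ - u * (x : ℝ) ^ (j + 2) ≤ u * ((x : ℝ) + 1) ^ (j + 2) - u * (x : ℝ) ^ (j + 2) := by linarith
        _ = u * (((x : ℝ) + 1) ^ (j + 1 + 1) - (x : ℝ) ^ (j + 1 + 1)) := by ring
        _ ≤ A * ((j + 2) * ((C : ℝ) * P) ^ (j + 1)) := h8
        _ = _ := by rw [mul_pow]; ring
    · have h4 : x = C * P := le_antisymm hx3 h
      have h5 : V * (P : ℝ) ^ (j + 2) ≤ u * (x : ℝ) ^ (j + 2) := by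
        rw [h4]
        push_cast
        rw [mul_pow, ← mul_assoc]
        apply mul_le_mul_of_nonneg_right _ (by positivity)
        refine h3.trans ?_
        apply mul_le_mul_of_nonneg_left _ hu.le
        exact le_self_pow₀ hC' (by omega)
      linarith

/-- the coarse count -/
theorem coarse (j P C A U : ℕ) (θ : Fin (j + 3) → ℝ) (τ : ℝ) (hP : 1 ≤ P) (hA : 1 ≤ A) (hC : C = A * U) (hU : 2 ≤ U)
    (h1 : ∀ i, 1 / (A : ℝ) ≤ θ i) (h2 : ∀ i, θ i ≤ A)
    (h3 : (((j + 2) * A * 2 ^ (j + 2) + A : ℕ) : ℝ) * (P : ℝ) ^ (j + 2) ≤ τ) (h4 : τ ≤ (U : ℝ) * (P : ℝ) ^ (j + 2)) :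
    (P : ℝ) ^ (j + 2) ≤ (((BX (j + 3) P C).filter (fun x => |F j (j + 3) θ x - τ| ≤
      ((A : ℝ) * (j + 2) * (C : ℝ) ^ (j + 1)) * (P : ℝ) ^ (j + 1))).card : ℝ) := by
  classical
  have hA' : (1 : ℝ) ≤ A := by exact_mod_cast hA
  have hP' : (1 : ℝ) ≤ P := by exact_mod_cast hP
  have hC1 : 2 ≤ C := by
    rw [hC]
    nlinarith
  have h0 : ∀ i, 0 < θ i := fun i => lt_of_lt_of_le (by positivity) (h1 i)
  -- the choice of the first variable
  have key : ∀ y ∈ Fintype.piFinset (fun _ : Fin (j + 2) => Finset.Icc (P : ℤ) ((2 * P : ℕ) : ℤ)),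
      ∃ x : ℤ, x ∈ XX P C ∧ |F j (j + 3) θ (Fin.cons x y) - τ| ≤
        ((A : ℝ) * (j + 2) * (C : ℝ) ^ (j + 1)) * (P : ℝ) ^ (j + 1) := by
    intro y hy
    rw [Fintype.mem_piFinset] at hy
    set S := ∑ i : Fin (j + 2), θ i.succ * (y i : ℝ) ^ (j + 2) with hS
    have hy1 : ∀ i, (P : ℝ) ≤ y i ∧ (y i : ℝ) ≤ 2 * P := by
      intro i
      have h5 := Finset.mem_Icc.mp (hy i)
      constructor
      · exact_mod_cast h5.1
      · have h6 : (y i : ℝ) ≤ (((2 * P : ℕ) : ℤ) : ℝ) := by exact_mod_cast h5.2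
        push_cast at h6
        exact h6
    have hS0 : 0 ≤ S := Finset.sum_nonneg fun i _ => by
      have := (hy1 i).1
      have h6 := (h0 i.succ).le
      have h7 : (0 : ℝ) ≤ y i := by linarith
      positivity
    have hS1 : S ≤ ((j + 2 : ℕ) : ℝ) * (A * 2 ^ (j + 2)) * (P : ℝ) ^ (j + 2) := by
      have h5 : ∀ i : Fin (j + 2), θ i.succ * (y i : ℝ) ^ (j + 2) ≤ (A * 2 ^ (j + 2)) * (P : ℝ) ^ (j + 2) := by
        intro i
        have h6 : (y i : ℝ) ^ (j + 2) ≤ (2 * (P : ℝ)) ^ (j + 2) :=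
          pow_le_pow_left₀ (by linarith [(hy1 i).1]) (hy1 i).2 _
        calc θ i.succ * (y i : ℝ) ^ (j + 2) ≤ A * (2 * (P : ℝ)) ^ (j + 2) :=
              mul_le_mul (h2 _) h6 (pow_nonneg (by linarith [(hy1 i).1]) _) (by positivity)
          _ = _ := by rw [mul_pow]; ring
      refine (Finset.sum_le_sum fun i _ => h5 i).trans ?_
      rw [Finset.sum_const, Finset.card_univ, Fintype.card_fin, nsmul_eq_mul]
      apply le_of_eq
      ring
    have hlow : θ 0 * (P : ℝ) ^ (j + 2) ≤ τ - S := by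
      have h5 : θ 0 * (P : ℝ) ^ (j + 2) ≤ A * (P : ℝ) ^ (j + 2) := mul_le_mul_of_nonneg_right (h2 0) (by positivity)
      push_cast at h3 hS1
      have h6 : (((j : ℝ) + 2) * A * 2 ^ (j + 2) + A) * (P : ℝ) ^ (j + 2) =
        ((j : ℝ) + 2) * (A * 2 ^ (j + 2)) * (P : ℝ) ^ (j + 2) + A * (P : ℝ) ^ (j + 2) := by ring
      rw [h6] at h3
      linarith
    have hup : τ - S ≤ (U : ℝ) * (P : ℝ) ^ (j + 2) := by linarith
    have hUC : (U : ℝ) ≤ θ 0 * C := by
      have h5 := mul_le_mul_of_nonneg_right (h1 0) (by positivity : (0 : ℝ) ≤ C)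
      refine le_trans (le_of_eq ?_) h5
      rw [hC]
      push_cast
      field_simp
    obtain ⟨x, hx, hx'⟩ := root j P C A (θ 0) (τ - S) U hP (by omega) (h0 0) (h2 0) hlow hup hUC
    refine ⟨x, hx, ?_⟩
    have h5 : F j (j + 3) θ (Fin.cons x y) = θ 0 * (x : ℝ) ^ (j + 2) + S := by
      unfold F
      rw [Fin.sum_univ_succ]
      simp only [Fin.cons_zero, Fin.cons_succ]
      rw [hS]
    rw [h5]
    have h6 : θ 0 * (x : ℝ) ^ (j + 2) + S - τ = θ 0 * (x : ℝ) ^ (j + 2) - (τ - S) := by ring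
    rw [h6]
    exact hx'
  choose! f hf using key
  have hcard : (Fintype.piFinset (fun _ : Fin (j + 2) => Finset.Icc (P : ℤ) ((2 * P : ℕ) : ℤ))).card ≤
      ((BX (j + 3) P C).filter (fun x => |F j (j + 3) θ x - τ| ≤
        ((A : ℝ) * (j + 2) * (C : ℝ) ^ (j + 1)) * (P : ℝ) ^ (j + 1))).card := by
    apply Finset.card_le_card_of_injOn (fun y : Fin (j + 2) → ℤ => (Fin.cons (f y) y : Fin (j + 3) → ℤ))
    · intro y hy
      have hy' : y ∈ Fintype.piFinset (fun _ : Fin (j + 2) => Finset.Icc (P : ℤ) ((2 * P : ℕ) : ℤ)) := hy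
      have h5 := hf y hy'
      simp only [Finset.coe_filter, Set.mem_ofPred_eq]
      refine ⟨?_, h5.2⟩
      unfold BX
      rw [Fintype.mem_piFinset]
      intro i
      refine Fin.cases ?_ ?_ i
      · rw [Fin.cons_zero]
        exact h5.1
      · intro i'
        rw [Fin.cons_succ]
        rw [Fintype.mem_piFinset] at hy'
        have h6 := Finset.mem_Icc.mp (hy' i')
        unfold XX
        rw [Finset.mem_Icc]
        refine ⟨h6.1, h6.2.trans ?_⟩
        exact_mod_cast Nat.mul_le_mul_right P hC1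
    · intro y _ y' _ h
      exact (Fin.cons_inj.mp h).2
  have h5 : P ^ (j + 2) ≤ (Fintype.piFinset (fun _ : Fin (j + 2) => Finset.Icc (P : ℤ) ((2 * P : ℕ) : ℤ))).card := by
    rw [Fintype.card_piFinset_const, Int.card_Icc]
    apply Nat.pow_le_pow_left
    push_cast
    omega
  exact_mod_cast h5.trans hcard

end Pool.Agent.Y867.WC
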