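import Pool.Agent.Y867.WC.GaF

/-! # The bad sets: closedness and the measure of the first one -/

set_option autoImplicit false

open MeasureTheory Filter Finset
open scoped ENNReal Real

namespace Pool.Agent.Y867.WC

open Pool.Agent.Y867.WR (QB QB_meas mem_QB)

/-- bad targets -/
def Bad (j C L U P h : ℕ) : (i : ℕ) → (Fin (j + 3 + i) → ℝ) → Set ℝ
  | 0, θ => {τ | (L : ℝ) * (P : ℝ) ^ (j + 2) ≤ τ ∧ τ ≤ (U : ℝ) * (P : ℝ) ^ (j + 2) ∧
      ∀ x ∈ BX (j + 3) P C, 1 / (2 : ℝ) ^ h ≤ |F j (j + 3) θ x - τ|}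
  | (i + 1), (θ : Fin (j + 3 + i + 1) → ℝ) =>
      {τ | τ - θ 0 * (P : ℝ) ^ (j + 2) ∈ Bad j C L U P h i (Fin.tail θ) ∧
        τ - θ 0 * (2 * (P : ℝ)) ^ (j + 2) ∈ Bad j C L U P h i (Fin.tail θ)}

theorem Bad_closed (j C L U P h i : ℕ) :
    IsClosed {p : (Fin (j + 3 + i) → ℝ) × ℝ | p.2 ∈ Bad j C L U P h i p.1} := by
  induction i with
  | zero =>
    have h1 : {p : (Fin (j + 3 + 0) → ℝ) × ℝ | p.2 ∈ Bad j C L U P h 0 p.1} =
        {p : (Fin (j + 3) → ℝ) × ℝ | (L : ℝ) * (P : ℝ) ^ (j + 2) ≤ p.2} ∩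
        ({p : (Fin (j + 3) → ℝ) × ℝ | p.2 ≤ (U : ℝ) * (P : ℝ) ^ (j + 2)} ∩
        ⋂ x ∈ BX (j + 3) P C, {p : (Fin (j + 3) → ℝ) × ℝ | 1 / (2 : ℝ) ^ h ≤ |F j (j + 3) p.1 x - p.2|}) := by
      ext p
      simp only [Bad, Set.mem_ofPred_eq, Set.mem_inter_iff, Set.mem_iInter]
    rw [h1]
    refine (isClosed_le continuous_const continuous_snd).inter
      ((isClosed_le continuous_snd continuous_const).inter ?_)
    refine isClosed_biInter fun x _ => isClosed_le continuous_const ?_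
    unfold F
    fun_prop
  | succ i ih =>
    have hc : ∀ c : ℝ, Continuous (fun p : (Fin (j + 3 + i + 1) → ℝ) × ℝ =>
        ((Fin.tail p.1 : Fin (j + 3 + i) → ℝ), p.2 - p.1 0 * c)) := by
      intro c
      apply Continuous.prodMk
      · apply continuous_pi
        intro a
        exact (continuous_apply a.succ).comp continuous_fst
      · fun_prop
    have h1 : {p : (Fin (j + 3 + (i + 1)) → ℝ) × ℝ | p.2 ∈ Bad j C L U P h (i + 1) p.1} =
        (fun p : (Fin (j + 3 + i + 1) → ℝ) × ℝ =>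
          ((Fin.tail p.1 : Fin (j + 3 + i) → ℝ), p.2 - p.1 0 * (P : ℝ) ^ (j + 2))) ⁻¹'
            {p : (Fin (j + 3 + i) → ℝ) × ℝ | p.2 ∈ Bad j C L U P h i p.1} ∩
        (fun p : (Fin (j + 3 + i + 1) → ℝ) × ℝ =>
          ((Fin.tail p.1 : Fin (j + 3 + i) → ℝ), p.2 - p.1 0 * (2 * (P : ℝ)) ^ (j + 2))) ⁻¹'
            {p : (Fin (j + 3 + i) → ℝ) × ℝ | p.2 ∈ Bad j C L U P h i p.1} := rfl
    rw [h1]
    exact (ih.preimage (hc _)).inter (ih.preimage (hc _))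

theorem Bad_meas (j C L U P h i : ℕ) (θ : Fin (j + 3 + i) → ℝ) : MeasurableSet (Bad j C L U P h i θ) := by
  have h1 := (Bad_closed j C L U P h i).preimage (Continuous.prodMk continuous_const continuous_id :
    Continuous (fun τ : ℝ => ((θ, τ) : (Fin (j + 3 + i) → ℝ) × ℝ)))
  exact h1.measurableSet

theorem Bad_vol_meas (j C L U P h i : ℕ) : Measurable (fun θ : Fin (j + 3 + i) → ℝ => volume (Bad j C L U P h i θ)) :=
  measurable_measure_prodMk_left (Bad_closed j C L U P h i).measurableSet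

theorem gq_small (h : ℕ) (t : ℝ) (ht : 1 / (2 : ℝ) ^ h ≤ |t|) :
    gq (1 / (16 : ℝ) ^ h) t ≤ Real.exp (-(π * 4 ^ h)) * 4 ^ h := by
  unfold gq
  have h1 : √(1 / (16 : ℝ) ^ h) = 1 / 4 ^ h := by
    rw [Real.sqrt_div zero_le_one, Real.sqrt_one]
    congr 1
    rw [show (16 : ℝ) ^ h = (4 ^ h) ^ 2 by rw [← pow_mul, mul_comm h 2, pow_mul]; norm_num]
    exact Real.sqrt_sq (by positivity)
  rw [h1, div_div_eq_mul_div, div_one]
  apply mul_le_mul_of_nonneg_right _ (by positivity)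
  apply Real.exp_le_exp.mpr
  rw [neg_le_neg_iff, div_div_eq_mul_div, div_one, mul_assoc]
  apply mul_le_mul_of_nonneg_left _ Real.pi_pos.le
  have h2 : (1 / (2 : ℝ) ^ h) ^ 2 ≤ t ^ 2 := by
    rw [← sq_abs t]
    exact pow_le_pow_left₀ (by positivity) ht 2
  have h3 : (1 / (2 : ℝ) ^ h) ^ 2 * 16 ^ h = 4 ^ h := by
    rw [one_div_pow, ← pow_mul, mul_comm h 2, pow_mul, show (16 : ℝ) = 4 * 4 by norm_num, mul_pow,
      show (2 : ℝ) ^ 2 = 4 by norm_num]
    field_simp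
  rw [← h3]
  exact mul_le_mul_of_nonneg_right h2 (by positivity)

theorem gq_big (H t : ℝ) (hH : 0 < H) (ht : |t| ≤ H) : Real.exp (-π) / H ≤ gq (H ^ 2) t := by
  unfold gq
  rw [Real.sqrt_sq hH.le]
  apply div_le_div_of_nonneg_right _ hH.le
  apply Real.exp_le_exp.mpr
  rw [neg_le_neg_iff, div_le_iff₀ (by positivity)]
  apply mul_le_mul_of_nonneg_left _ Real.pi_pos.le
  rw [← sq_abs t]
  exact pow_le_pow_left₀ (abs_nonneg t) ht 2

theorem BX_card (n P C : ℕ) (hP : 1 ≤ P) : ((BX n P C).card : ℝ) ≤ ((C : ℝ) * P) ^ n := by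
  unfold BX
  rw [Fintype.card_piFinset_const]
  push_cast
  exact pow_le_pow_left₀ (by positivity) (XX_card P C hP) n

/-- the measure of the first bad set -/
theorem meas0 (j P C A U h : ℕ) (θ : Fin (j + 3) → ℝ) (hP : 1 ≤ P) (hA : 1 ≤ A) (hC : C = A * U) (hU : 2 ≤ U)
    (h1 : ∀ i, 1 / (A : ℝ) ≤ θ i) (h2 : ∀ i, θ i ≤ A) (CH : ℝ) (hCH : CH = (A : ℝ) * (j + 2) * (C : ℝ) ^ (j + 1))
    (a : ℝ) (ha : a = P * Real.exp (-π) / (2 * CH))
    (hsmall : ((C : ℝ) * P) ^ (j + 3) * (Real.exp (-(π * 4 ^ h)) * 4 ^ h) ≤ a) :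
    ENNReal.ofReal (a ^ 2) * volume (Bad j C ((j + 2) * A * 2 ^ (j + 2) + A) U P h 0 θ) ≤
      ENNReal.ofReal (J j (j + 3) P C (1 / (16 : ℝ) ^ h) ((CH * (P : ℝ) ^ (j + 1)) ^ 2) θ) := by
  have hA' : (1 : ℝ) ≤ A := by exact_mod_cast hA
  have hP' : (1 : ℝ) ≤ P := by exact_mod_cast hP
  have hC1 : 1 ≤ C := by
    rw [hC]
    exact Nat.mul_pos hA (by omega)
  have hC' : (1 : ℝ) ≤ C := by exact_mod_cast hC1
  have hCH0 : 0 < CH := by
    rw [hCH]
    positivity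
  have ha0 : 0 < a := by
    rw [ha]
    positivity
  set H := CH * (P : ℝ) ^ (j + 1) with hH
  have hH0 : 0 < H := by positivity
  set q : ℝ := 1 / (16 : ℝ) ^ h with hq
  have hq0 : 0 < q := by positivity
  have hpl := plan (BX (j + 3) P C) (F j (j + 3) θ) q (H ^ 2) hq0 (by positivity)
  set f : ℝ → ℝ := fun τ => (∑ x ∈ BX (j + 3) P C, gd q (H ^ 2) (F j (j + 3) θ x - τ)) ^ 2 with hf
  have hsub : Bad j C ((j + 2) * A * 2 ^ (j + 2) + A) U P h 0 θ ⊆ {τ | ENNReal.ofReal (a ^ 2) ≤ ENNReal.ofReal (f τ)} := by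
    intro τ hτ
    have hτ' : (((j + 2) * A * 2 ^ (j + 2) + A : ℕ) : ℝ) * (P : ℝ) ^ (j + 2) ≤ τ ∧ τ ≤ (U : ℝ) * (P : ℝ) ^ (j + 2) ∧
      ∀ x ∈ BX (j + 3) P C, 1 / (2 : ℝ) ^ h ≤ |F j (j + 3) θ x - τ| := hτ
    obtain ⟨t1, t2, t3⟩ := hτ'
    rw [Set.mem_ofPred_eq]
    apply ENNReal.ofReal_le_ofReal
    have hc := coarse j P C A U θ τ hP hA hC hU h1 h2 t1 t2
    rw [← hCH, ← hH] at hc
    have e1 : ∑ x ∈ BX (j + 3) P C, gq q (F j (j + 3) θ x - τ) ≤ a := by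
      refine le_trans ?_ hsmall
      refine (Finset.sum_le_sum fun x hx => gq_small h _ (t3 x hx)).trans ?_
      rw [Finset.sum_const, nsmul_eq_mul]
      exact mul_le_mul_of_nonneg_right (BX_card _ _ _ hP) (by positivity)
    have e2 : 2 * a ≤ ∑ x ∈ BX (j + 3) P C, gq (H ^ 2) (F j (j + 3) θ x - τ) := by
      have e3 : ∑ x ∈ (BX (j + 3) P C).filter (fun x => |F j (j + 3) θ x - τ| ≤ H), gq (H ^ 2) (F j (j + 3) θ x - τ) ≤
          ∑ x ∈ BX (j + 3) P C, gq (H ^ 2) (F j (j + 3) θ x - τ) :=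
        Finset.sum_le_sum_of_subset_of_nonneg (Finset.filter_subset _ _)
          (fun x _ _ => (gq_pos _ _ (by positivity)).le)
      refine le_trans ?_ e3
      have e4 : ∑ x ∈ (BX (j + 3) P C).filter (fun x => |F j (j + 3) θ x - τ| ≤ H), Real.exp (-π) / H ≤
          ∑ x ∈ (BX (j + 3) P C).filter (fun x => |F j (j + 3) θ x - τ| ≤ H), gq (H ^ 2) (F j (j + 3) θ x - τ) :=
        Finset.sum_le_sum fun x hx => gq_big H _ hH0 (Finset.mem_filter.mp hx).2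
      refine le_trans ?_ e4
      rw [Finset.sum_const, nsmul_eq_mul]
      refine le_trans ?_ (mul_le_mul_of_nonneg_right hc (by positivity))
      rw [ha, hH]
      apply le_of_eq
      field_simp
      ring
    have e5 : ∑ x ∈ BX (j + 3) P C, gd q (H ^ 2) (F j (j + 3) θ x - τ) ≤ -a := by
      unfold gd
      rw [Finset.sum_sub_distrib]
      linarith
    rw [hf]
    simp only
    rw [← neg_sq (∑ x ∈ BX (j + 3) P C, gd q (H ^ 2) (F j (j + 3) θ x - τ))]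
    exact pow_le_pow_left₀ ha0.le (by linarith) 2
  have hfm : Measurable (fun τ => ENNReal.ofReal (f τ)) := by
    apply Measurable.ennreal_ofReal
    apply Measurable.pow_const
    apply Finset.measurable_fun_sum
    intro x _
    unfold gd
    exact (((gq_cont q).comp (by fun_prop)).sub ((gq_cont (H ^ 2)).comp (by fun_prop))).measurable
  have hmk := mul_meas_ge_le_lintegral (μ := volume) hfm (ENNReal.ofReal (a ^ 2))
  have hJ : ∫⁻ τ, ENNReal.ofReal (f τ) = ENNReal.ofReal (J j (j + 3) P C q (H ^ 2) θ) := by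
    rw [← ofReal_integral_eq_lintegral_ofReal hpl.1 (Eventually.of_forall fun τ => sq_nonneg _)]
    rfl
  rw [hJ] at hmk
  exact (mul_le_mul_right (measure_mono hsub) _).trans hmk

end Pool.Agent.Y867.WC
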