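import Pool.Agent.Y867.WC.GaG

/-! # The first stage: the first bad set is small for almost all coefficients -/

set_option autoImplicit false

open MeasureTheory Filter Finset
open scoped ENNReal Real

namespace Pool.Agent.Y867.WC

open Pool.Agent.Y867.WR (QB QB_meas mem_QB bc')

theorem growth (a N0 : ℕ) (hN : 1 ≤ N0) : ∀ᶠ m : ℕ in atTop, ((m : ℝ) + 1) ^ a ≤ 2 ^ (m / N0) := by
  have h1 : Tendsto (fun n : ℕ => (n : ℝ) ^ a / (2 : ℝ) ^ n) atTop (nhds 0) :=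
    tendsto_pow_const_div_const_pow_of_one_lt a (by norm_num)
  have hpos : (0 : ℝ) < 1 / (2 * N0 : ℝ) ^ a := by
    have : (0 : ℝ) < N0 := by exact_mod_cast hN
    positivity
  have h2 : ∀ᶠ n : ℕ in atTop, (n : ℝ) ^ a / (2 : ℝ) ^ n < 1 / (2 * N0 : ℝ) ^ a := h1.eventually_lt_const hpos
  have h3 : Tendsto (fun m : ℕ => m / N0) atTop atTop := Nat.tendsto_div_const_atTop (by omega)
  filter_upwards [h3.eventually h2, h3.eventually (eventually_ge_atTop 1)] with m hm hm1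
  have hN' : (0 : ℝ) < N0 := by exact_mod_cast hN
  have h4 : m + 1 ≤ 2 * N0 * (m / N0) := by
    have h5 := Nat.lt_mul_div_succ m (by omega : 0 < N0)
    have h6 : N0 * (m / N0 + 1) ≤ 2 * N0 * (m / N0) := by nlinarith
    omega
  have h5 : ((m : ℝ) + 1) ^ a ≤ ((2 * N0 : ℝ) * ((m / N0 : ℕ) : ℝ)) ^ a := by
    apply pow_le_pow_left₀ (by positivity)
    exact_mod_cast h4
  refine h5.trans ?_
  rw [mul_pow]
  rw [div_lt_div_iff₀ (by positivity) (by positivity), one_mul] at hm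
  rw [mul_comm]
  exact hm.le

theorem small_ev (j C N0 : ℕ) (CH : ℝ) (hN : 1 ≤ N0) (hC : 1 ≤ C) (hCH : 0 < CH) : ∀ᶠ m : ℕ in atTop,
    ((C : ℝ) * ((2 ^ m : ℕ) : ℝ)) ^ (j + 3) * (Real.exp (-(π * 4 ^ (m / N0))) * 4 ^ (m / N0)) ≤
      ((2 ^ m : ℕ) : ℝ) * Real.exp (-π) / (2 * CH) := by
  have hC' : (0 : ℝ) < C := by exact_mod_cast hC
  set c0 : ℝ := Real.exp (-π) / (2 * CH) with hc0
  have hc0' : 0 < c0 := by positivity
  obtain ⟨k0, hk0⟩ := pow_unbounded_of_one_lt ((C : ℝ) ^ (j + 3) / c0) (by norm_num : (1 : ℝ) < 2)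
  set b := N0 * (j + 3) + 2 with hb
  have h3 : Tendsto (fun m : ℕ => m / N0) atTop atTop := Nat.tendsto_div_const_atTop (by omega)
  filter_upwards [h3.eventually (eventually_ge_atTop (b + k0))] with m hm
  set h := m / N0 with hh
  have hexp : Real.exp (-(π * 4 ^ h)) ≤ 1 / 2 ^ (4 ^ h) := by
    have h4 : -(π * 4 ^ h) = ((4 ^ h : ℕ) : ℝ) * (-π) := by push_cast; ring
    rw [h4, Real.exp_nat_mul, ← one_div_pow]
    apply pow_le_pow_left₀ (Real.exp_pos _).le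
    rw [Real.exp_neg, ← one_div]
    apply one_div_le_one_div_of_le (by norm_num)
    linarith [Real.add_one_le_exp π, Real.pi_gt_three]
  have hexpo : m * (j + 3) + 2 * h + k0 ≤ 4 ^ h := by
    have h5 : m ≤ N0 * (h + 1) := (Nat.lt_mul_div_succ m (by omega : 0 < N0)).le
    have h6 : m * (j + 3) + 2 * h + k0 ≤ (h + 1) * (b + k0) := by
      have h7 : m * (j + 3) ≤ N0 * (h + 1) * (j + 3) := Nat.mul_le_mul_right _ h5
      have h8 : (h + 1) * (b + k0) = N0 * (h + 1) * (j + 3) + 2 * (h + 1) + (h + 1) * k0 := by rw [hb]; ring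
      rw [h8]
      nlinarith
    have h9 : h + 1 ≤ 2 ^ h := Nat.lt_two_pow_self
    calc m * (j + 3) + 2 * h + k0 ≤ (h + 1) * (b + k0) := h6
      _ ≤ 2 ^ h * 2 ^ h := Nat.mul_le_mul h9 (by omega)
      _ = 4 ^ h := by
          rw [← mul_pow]
          norm_num
  have h10 : (1 : ℝ) ≤ ((2 ^ m : ℕ) : ℝ) := by exact_mod_cast Nat.one_le_two_pow
  have h11 : ((C : ℝ) * ((2 ^ m : ℕ) : ℝ)) ^ (j + 3) * (Real.exp (-(π * 4 ^ h)) * 4 ^ h) ≤ c0 := by
    calc ((C : ℝ) * ((2 ^ m : ℕ) : ℝ)) ^ (j + 3) * (Real.exp (-(π * 4 ^ h)) * 4 ^ h) ≤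
          ((C : ℝ) * ((2 ^ m : ℕ) : ℝ)) ^ (j + 3) * (1 / 2 ^ (4 ^ h) * 4 ^ h) := by gcongr
      _ = (C : ℝ) ^ (j + 3) * (2 ^ (m * (j + 3) + 2 * h) / 2 ^ (4 ^ h)) := by
          push_cast
          rw [mul_pow, ← pow_mul, pow_add (2 : ℝ) (m * (j + 3)) (2 * h), pow_mul (2 : ℝ) 2 h,
            show (2 : ℝ) ^ 2 = 4 by norm_num]
          ring
      _ ≤ (C : ℝ) ^ (j + 3) * (1 / 2 ^ k0) := by
          apply mul_le_mul_of_nonneg_left _ (by positivity)
          rw [div_le_div_iff₀ (by positivity) (by positivity), one_mul, ← pow_add]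
          exact pow_le_pow_right₀ (by norm_num) hexpo
      _ ≤ c0 := by
          rw [mul_one_div, div_le_iff₀ (by positivity)]
          rw [div_lt_iff₀ hc0'] at hk0
          linarith
  refine h11.trans ?_
  rw [hc0, mul_div_assoc]
  exact le_mul_of_one_le_left (by positivity) h10

/-- the bound for the measure of the bad sets -/
noncomputable def lam (j N0 i m : ℕ) : ℝ :=
  ((2 ^ m : ℕ) : ℝ) ^ (j + 2) * (2 ^ (5 * (m / N0)) / ((2 ^ m : ℕ) : ℝ)) ^ (2 ^ i) / 2 ^ (m / N0)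

theorem lam_pos (j N0 i m : ℕ) : 0 < lam j N0 i m := by
  unfold lam
  positivity

theorem J_meas (j n P C : ℕ) (q Q : ℝ) : Measurable (fun θ : Fin n → ℝ => J j n P C q Q θ) := by
  have hc : Continuous (fun p : (Fin n → ℝ) × ℝ => (∑ x ∈ BX n P C, gd q Q (F j n p.1 x - p.2)) ^ 2) := by
    apply Continuous.pow
    apply continuous_finsetSum
    intro x _
    unfold gd F
    exact ((gq_cont q).comp (by fun_prop)).sub ((gq_cont Q).comp (by fun_prop))
  exact (hc.stronglyMeasurable.integral_prod_right).measurable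

theorem stage0 (j A U C N0 : ℕ) (hA : 1 ≤ A) (hC : C = A * U) (hU : 2 ≤ U) (hN : 1 ≤ N0) :
    ∀ᵐ θ ∂(volume.restrict (QB (j + 3) A)), ∀ᶠ m : ℕ in atTop, (∀ i, 1 / (A : ℝ) ≤ θ i) →
      volume (Bad j C ((j + 2) * A * 2 ^ (j + 2) + A) U (2 ^ m) (m / N0) 0 θ) ≤ ENNReal.ofReal (lam j N0 0 m) := by
  have hA' : (1 : ℝ) ≤ A := by exact_mod_cast hA
  have hC1 : 1 ≤ C := by
    rw [hC]
    exact Nat.mul_pos hA (by omega)
  have hC' : (1 : ℝ) ≤ C := by exact_mod_cast hC1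
  set CH : ℝ := (A : ℝ) * (j + 2) * (C : ℝ) ^ (j + 1) with hCH
  have hCpow : (1 : ℝ) ≤ (C : ℝ) ^ (j + 1) := one_le_pow₀ hC'
  have hCH1 : 1 ≤ CH := by
    have h1 : (1 : ℝ) ≤ (A : ℝ) * (j + 2) := one_le_mul_of_one_le_of_one_le hA' (by
      have : (0 : ℝ) ≤ j := by positivity
      linarith)
    exact one_le_mul_of_one_le_of_one_le h1 hCpow
  have hpi := Real.pi_pos
  set a : ℕ → ℝ := fun m => ((2 ^ m : ℕ) : ℝ) * Real.exp (-π) / (2 * CH) with ha
  have ha0 : ∀ m, 0 < a m := fun m => by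
    simp only [ha]
    positivity
  have hlogC : 0 ≤ Real.log C := Real.log_nonneg hC'
  set K2 : ℝ := (4 * A * C ^ 2 * (1 + Real.log C)) ^ (j + 3) * (1 + 2 * π ^ 2 * CH ^ 4) *
    (4 * CH ^ 2 * Real.exp π ^ 2) with hK2
  have hK20 : 0 ≤ K2 := by positivity
  obtain ⟨p0, hp0⟩ := eventually_atTop.mp (growth (j + 5) N0 hN)
  set s : ℕ → Set (Fin (j + 3) → ℝ) := fun m => {θ | ENNReal.ofReal (a m ^ 2 * lam j N0 0 m) ≤
    ENNReal.ofReal (J j (j + 3) (2 ^ m) C (1 / (16 : ℝ) ^ (m / N0)) ((CH * ((2 ^ m : ℕ) : ℝ) ^ (j + 1)) ^ 2) θ)} with hs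
  have hmu : ∀ m, p0 ≤ m → (volume.restrict (QB (j + 3) (A : ℝ))) (s m) ≤
      ENNReal.ofReal (K2 * (1 / ((m : ℝ) + 1) ^ 2)) := by
    intro m hm
    have hP1 : 1 ≤ 2 ^ m := Nat.one_le_two_pow
    have hP' : (0 : ℝ) < ((2 ^ m : ℕ) : ℝ) := by exact_mod_cast hP1
    set P : ℝ := ((2 ^ m : ℕ) : ℝ) with hP
    have hlam : 0 < a m ^ 2 * lam j N0 0 m := mul_pos (pow_pos (ha0 m) 2) (lam_pos _ _ _ _)
    have h1 := meas_ge_le_lintegral_div (μ := volume.restrict (QB (j + 3) (A : ℝ)))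
      ((J_meas j (j + 3) (2 ^ m) C (1 / (16 : ℝ) ^ (m / N0)) ((CH * P ^ (j + 1)) ^ 2)).ennreal_ofReal.aemeasurable)
      (ne_of_gt (ENNReal.ofReal_pos.mpr hlam)) ENNReal.ofReal_ne_top
    have hq1 : (1 : ℝ) / (16 : ℝ) ^ (m / N0) ≤ 1 := by
      rw [div_le_one (by positivity)]
      exact one_le_pow₀ (by norm_num)
    have h2 := msq2 j (2 ^ m) C A CH (1 / (16 : ℝ) ^ (m / N0)) hP1 hC1 hA' hCH1 (by positivity) hq1
    rw [← hP] at h2
    refine h1.trans ((ENNReal.div_le_div_right h2 _).trans ?_)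
    rw [← ENNReal.ofReal_div_of_pos hlam]
    apply ENNReal.ofReal_le_ofReal
    have hsq : √(1 / (16 : ℝ) ^ (m / N0)) = 1 / 4 ^ (m / N0) := by
      rw [Real.sqrt_div zero_le_one, Real.sqrt_one]
      congr 1
      rw [show (16 : ℝ) ^ (m / N0) = (4 ^ (m / N0)) ^ 2 by rw [← pow_mul, mul_comm _ 2, pow_mul]; norm_num]
      exact Real.sqrt_sq (by positivity)
    have hlogP : Real.log (C * P) ≤ Real.log C + m := by
      rw [Real.log_mul (by positivity) (by positivity), hP]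
      push_cast
      rw [Real.log_pow]
      have h3 : Real.log 2 ≤ 1 := by linarith [Real.log_two_lt_d9]
      have h4 : (m : ℝ) * Real.log 2 ≤ m * 1 := mul_le_mul_of_nonneg_left h3 (by positivity)
      linarith
    have hlogP0 : 0 ≤ Real.log (C * P) := by
      apply Real.log_nonneg
      exact one_le_mul_of_one_le_of_one_le hC' (by rw [hP]; exact_mod_cast hP1)
    have hD : (4 * A * C ^ 2 * (1 + Real.log (C * P))) ^ (j + 3) ≤
        (4 * A * C ^ 2 * (1 + Real.log C)) ^ (j + 3) * ((m : ℝ) + 1) ^ (j + 3) := by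
      rw [← mul_pow]
      apply pow_le_pow_left₀ (by positivity)
      rw [mul_assoc (4 * (A : ℝ) * C ^ 2)]
      apply mul_le_mul_of_nonneg_left _ (by positivity)
      nlinarith [mul_nonneg hlogC (by positivity : (0 : ℝ) ≤ m)]
    have hg := hp0 m hm
    set h := m / N0 with hh
    have hlameq : a m ^ 2 * lam j N0 0 m = P ^ (j + 3) * 16 ^ h / (4 * CH ^ 2 * Real.exp π ^ 2) := by
      simp only [ha]
      unfold lam
      rw [← hP, ← hh, Real.exp_neg, pow_zero, pow_one]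
      have h32 : (2 : ℝ) ^ (5 * h) = 16 ^ h * 2 ^ h := by
        rw [← mul_pow, pow_mul]
        norm_num
      rw [h32, show j + 3 = (j + 2) + 1 by ring, pow_succ P (j + 2)]
      field_simp
      ring
    have hx : P ^ (j + 3) / (1 / (4 : ℝ) ^ h) = P ^ (j + 3) * 4 ^ h := by rw [div_div_eq_mul_div, div_one]
    rw [hlameq, hsq, hx, div_div_eq_mul_div]
    rw [div_le_iff₀ (by positivity)]
    have h5 : ((m : ℝ) + 1) ^ (j + 3) * 4 ^ h ≤ 1 / ((m : ℝ) + 1) ^ 2 * 16 ^ h := by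
      have h6 : ((m : ℝ) + 1) ^ (j + 3) * ((m : ℝ) + 1) ^ 2 ≤ 4 ^ h := by
        rw [← pow_add]
        refine hg.trans ?_
        exact pow_le_pow_left₀ (by norm_num) (by norm_num) _
      have h7 : (16 : ℝ) ^ h = 4 ^ h * 4 ^ h := by rw [← mul_pow]; norm_num
      rw [h7, one_div, ← mul_assoc]
      apply mul_le_mul_of_nonneg_right _ (by positivity)
      rw [inv_mul_eq_div, le_div_iff₀ (by positivity)]
      exact h6
    calc (4 * A * C ^ 2 * (1 + Real.log (C * P))) ^ (j + 3) * (1 + 2 * π ^ 2 * CH ^ 4) * (P ^ (j + 3) * 4 ^ h) *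
          (4 * CH ^ 2 * Real.exp π ^ 2) ≤ ((4 * A * C ^ 2 * (1 + Real.log C)) ^ (j + 3) * ((m : ℝ) + 1) ^ (j + 3)) *
          (1 + 2 * π ^ 2 * CH ^ 4) * (P ^ (j + 3) * 4 ^ h) * (4 * CH ^ 2 * Real.exp π ^ 2) := by
          apply mul_le_mul_of_nonneg_right _ (by positivity)
          apply mul_le_mul_of_nonneg_right _ (by positivity)
          exact mul_le_mul_of_nonneg_right hD (by positivity)
      _ = K2 * (((m : ℝ) + 1) ^ (j + 3) * 4 ^ h) * P ^ (j + 3) := by rw [hK2]; ring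
      _ ≤ K2 * (1 / ((m : ℝ) + 1) ^ 2 * 16 ^ h) * P ^ (j + 3) := by
          apply mul_le_mul_of_nonneg_right _ (by positivity)
          exact mul_le_mul_of_nonneg_left h5 hK20
      _ = _ := by ring
  have hsum : Summable (fun m : ℕ => K2 * (1 / ((m : ℝ) + 1) ^ 2)) := by
    apply Summable.mul_left
    have h1 := (summable_nat_add_iff (f := fun m : ℕ => 1 / (m : ℝ) ^ 2) 1).mpr
      (Real.summable_one_div_nat_pow.mpr (by norm_num))
    refine h1.congr fun m => ?_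
    push_cast
    rfl
  have hae := bc' (volume.restrict (QB (j + 3) (A : ℝ))) s _ hsum p0 hmu
  have hQ : ∀ᵐ θ ∂(volume.restrict (QB (j + 3) (A : ℝ))), θ ∈ QB (j + 3) (A : ℝ) := ae_restrict_mem (QB_meas _ _)
  filter_upwards [hae, hQ] with θ h1 h2
  filter_upwards [h1, small_ev j C N0 CH hN hC1 (by linarith)] with m h3 h4 h5
  have hP1 : 1 ≤ 2 ^ m := Nat.one_le_two_pow
  have h6 := meas0 j (2 ^ m) C A U (m / N0) θ hP1 hA hC hU h5
    (fun i => (le_abs_self _).trans ((mem_QB _ _ θ).mp h2 i)) CH hCH (a m) rfl h4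
  have h7 : ENNReal.ofReal (J j (j + 3) (2 ^ m) C (1 / (16 : ℝ) ^ (m / N0))
      ((CH * ((2 ^ m : ℕ) : ℝ) ^ (j + 1)) ^ 2) θ) < ENNReal.ofReal (a m ^ 2 * lam j N0 0 m) := by
    simp only [hs, Set.mem_ofPred_eq] at h3
    exact not_le.mp h3
  have h8 := h6.trans_lt h7
  rw [ENNReal.ofReal_mul (by positivity)] at h8
  by_contra h9
  push Not at h9
  exact absurd h8 (not_lt.mpr (mul_le_mul_right h9.le _))

end Pool.Agent.Y867.WC
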