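import Pool.Agent.Y867.WC.GaH

/-! # One more variable squares the density of the bad set -/

set_option autoImplicit false

open MeasureTheory Filter Finset
open scoped ENNReal Real

namespace Pool.Agent.Y867.WC

open Pool.Agent.Y867.WR (QB QB_meas mem_QB bc')

theorem dbl_set (B : Set ℝ) (hB : MeasurableSet B) (D : ℝ) :
    MeasurableSet {p : ℝ × ℝ | p.2 ∈ B ∧ p.2 - p.1 * D ∈ B} := by
  apply MeasurableSet.inter
  · exact measurable_snd hB
  · exact (by fun_prop : Measurable (fun p : ℝ × ℝ => p.2 - p.1 * D)) hB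

theorem dbl_fib (B : Set ℝ) (hB : MeasurableSet B) (c1 c2 φ : ℝ) :
    volume {τ : ℝ | τ - φ * c1 ∈ B ∧ τ - φ * c2 ∈ B} =
      volume (Prod.mk φ ⁻¹' {p : ℝ × ℝ | p.2 ∈ B ∧ p.2 - p.1 * (c2 - c1) ∈ B}) := by
  have hS : MeasurableSet (Prod.mk φ ⁻¹' {p : ℝ × ℝ | p.2 ∈ B ∧ p.2 - p.1 * (c2 - c1) ∈ B}) :=
    measurable_prodMk_left (dbl_set B hB (c2 - c1))
  have h1 := (measurePreserving_sub_right (volume : Measure ℝ) (φ * c1)).measure_preimage hS.nullMeasurableSet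
  rw [← h1]
  congr 1
  ext τ
  simp only [Set.mem_ofPred_eq, Set.mem_preimage]
  have h2 : τ - φ * c1 - φ * (c2 - c1) = τ - φ * c2 := by ring
  rw [h2]

/-- two shifts by a random multiple: the measures multiply -/
theorem dbl (B : Set ℝ) (hB : MeasurableSet B) (c1 c2 : ℝ) (h : c1 < c2) :
    ∫⁻ φ : ℝ, volume {τ : ℝ | τ - φ * c1 ∈ B ∧ τ - φ * c2 ∈ B} ≤
      ENNReal.ofReal (1 / (c2 - c1)) * volume B * volume B := by
  set D := c2 - c1 with hD
  have hD0 : 0 < D := by linarith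
  have hS := dbl_set B hB D
  have h1 : ∫⁻ φ : ℝ, volume {τ : ℝ | τ - φ * c1 ∈ B ∧ τ - φ * c2 ∈ B} =
      ((volume : Measure ℝ).prod (volume : Measure ℝ)) {p : ℝ × ℝ | p.2 ∈ B ∧ p.2 - p.1 * D ∈ B} := by
    rw [Measure.prod_apply hS]
    exact lintegral_congr fun φ => dbl_fib B hB c1 c2 φ
  rw [h1, Measure.prod_apply_symm hS]
  have h2 : ∀ z : ℝ, volume ((fun x : ℝ => (x, z)) ⁻¹' {p : ℝ × ℝ | p.2 ∈ B ∧ p.2 - p.1 * D ∈ B}) ≤
      B.indicator (fun _ => ENNReal.ofReal (1 / D) * volume B) z := by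
    intro z
    by_cases hz : z ∈ B
    · rw [Set.indicator_of_mem hz]
      have h3 : ((fun x : ℝ => (x, z)) ⁻¹' {p : ℝ × ℝ | p.2 ∈ B ∧ p.2 - p.1 * D ∈ B}) ⊆
          (fun x : ℝ => D * x) ⁻¹' ((fun y : ℝ => z - y) ⁻¹' B) := by
        intro x hx
        simp only [Set.mem_preimage, Set.mem_ofPred_eq] at hx ⊢
        rw [mul_comm]
        exact hx.2
      refine (measure_mono h3).trans ?_
      rw [Real.volume_preimage_mul_left hD0.ne',
        (Measure.measurePreserving_sub_left (volume : Measure ℝ) z).measure_preimage hB.nullMeasurableSet,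
        abs_of_pos (inv_pos.mpr hD0), one_div]
    · rw [Set.indicator_of_notMem hz]
      have h3 : ((fun x : ℝ => (x, z)) ⁻¹' {p : ℝ × ℝ | p.2 ∈ B ∧ p.2 - p.1 * D ∈ B}) = ∅ := by
        rw [Set.eq_empty_iff_forall_notMem]
        intro x hx
        exact hz hx.1
      rw [h3, measure_empty]
  refine (lintegral_mono h2).trans ?_
  rw [lintegral_indicator hB, setLIntegral_const]

theorem lam_step (j N0 i m : ℕ) : lam j N0 i m ^ 2 / ((2 ^ m : ℕ) : ℝ) ^ (j + 2) = lam j N0 (i + 1) m * (1 / 2 ^ (m / N0)) := by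
  unfold lam
  have hP : (0 : ℝ) < ((2 ^ m : ℕ) : ℝ) := by exact_mod_cast Nat.one_le_two_pow
  set P : ℝ := ((2 ^ m : ℕ) : ℝ)
  set r : ℝ := 2 ^ (5 * (m / N0)) / P
  have h1 : r ^ (2 ^ (i + 1)) = (r ^ (2 ^ i)) ^ 2 := by rw [← pow_mul, ← pow_succ]
  rw [h1]
  field_simp

theorem step1 (j N0 i : ℕ) (hN : 1 ≤ N0) (B : ℕ → Set ℝ) (hB : ∀ m, MeasurableSet (B m))
    (hb : ∀ᶠ m : ℕ in atTop, volume (B m) ≤ ENNReal.ofReal (lam j N0 i m)) :
    ∀ᵐ φ : ℝ, ∀ᶠ m : ℕ in atTop, volume {τ : ℝ | τ - φ * ((2 ^ m : ℕ) : ℝ) ^ (j + 2) ∈ B m ∧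
      τ - φ * (2 * ((2 ^ m : ℕ) : ℝ)) ^ (j + 2) ∈ B m} ≤ ENNReal.ofReal (lam j N0 (i + 1) m) := by
  set g : ℕ → ℝ → ℝ≥0∞ := fun m φ => volume {τ : ℝ | τ - φ * ((2 ^ m : ℕ) : ℝ) ^ (j + 2) ∈ B m ∧
      τ - φ * (2 * ((2 ^ m : ℕ) : ℝ)) ^ (j + 2) ∈ B m} with hg
  have hgm : ∀ m, Measurable (g m) := by
    intro m
    have h1 : g m = fun φ => volume (Prod.mk φ ⁻¹' {p : ℝ × ℝ | p.2 ∈ B m ∧ p.2 - p.1 *
        ((2 * ((2 ^ m : ℕ) : ℝ)) ^ (j + 2) - ((2 ^ m : ℕ) : ℝ) ^ (j + 2)) ∈ B m}) := by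
      funext φ
      exact dbl_fib (B m) (hB m) _ _ φ
    rw [h1]
    exact measurable_measure_prodMk_left (dbl_set (B m) (hB m) _)
  set s : ℕ → Set ℝ := fun m => {φ | ENNReal.ofReal (lam j N0 (i + 1) m) ≤ g m φ} with hs
  obtain ⟨p0, hp0⟩ := eventually_atTop.mp (hb.and (growth 2 N0 hN))
  have hmu : ∀ m, p0 ≤ m → volume (s m) ≤ ENNReal.ofReal (1 / ((m : ℝ) + 1) ^ 2) := by
    intro m hm
    obtain ⟨hb1, hgr⟩ := hp0 m hm
    have hP1 : (1 : ℝ) ≤ ((2 ^ m : ℕ) : ℝ) := by exact_mod_cast Nat.one_le_two_pow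
    have hP : (0 : ℝ) < ((2 ^ m : ℕ) : ℝ) := by linarith
    set P : ℝ := ((2 ^ m : ℕ) : ℝ) with hPdef
    have hlt : P ^ (j + 2) < (2 * P) ^ (j + 2) := pow_lt_pow_left₀ (by linarith) hP.le (by omega)
    have hlam := lam_pos j N0 (i + 1) m
    have h1 := meas_ge_le_lintegral_div (μ := (volume : Measure ℝ)) (hgm m).aemeasurable
      (ne_of_gt (ENNReal.ofReal_pos.mpr hlam)) ENNReal.ofReal_ne_top
    refine h1.trans ?_
    have h2 := dbl (B m) (hB m) (P ^ (j + 2)) ((2 * P) ^ (j + 2)) hlt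
    have h3 : ∫⁻ φ, g m φ ≤ ENNReal.ofReal (lam j N0 (i + 1) m * (1 / 2 ^ (m / N0))) := by
      refine h2.trans ?_
      have h4 : ENNReal.ofReal (1 / ((2 * P) ^ (j + 2) - P ^ (j + 2))) * volume (B m) * volume (B m) ≤
          ENNReal.ofReal (1 / P ^ (j + 2)) * ENNReal.ofReal (lam j N0 i m) * ENNReal.ofReal (lam j N0 i m) := by
        apply mul_le_mul' (mul_le_mul' _ hb1) hb1
        apply ENNReal.ofReal_le_ofReal
        apply one_div_le_one_div_of_le (by positivity)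
        rw [mul_pow]
        have h5 : (2 : ℝ) ≤ 2 ^ (j + 2) := le_self_pow₀ (by norm_num) (by omega)
        have h6 : 2 * P ^ (j + 2) ≤ 2 ^ (j + 2) * P ^ (j + 2) := mul_le_mul_of_nonneg_right h5 (by positivity)
        linarith
      refine h4.trans ?_
      rw [← ENNReal.ofReal_mul (by positivity), ← ENNReal.ofReal_mul (mul_nonneg (by positivity) (lam_pos _ _ _ _).le)]
      apply ENNReal.ofReal_le_ofReal
      rw [← lam_step]
      apply le_of_eq
      ring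
    refine (ENNReal.div_le_div_right h3 _).trans ?_
    rw [← ENNReal.ofReal_div_of_pos hlam]
    apply ENNReal.ofReal_le_ofReal
    rw [mul_div_assoc, mul_comm, div_mul_cancel₀ _ hlam.ne']
    exact one_div_le_one_div_of_le (by positivity) hgr
  have hsum : Summable (fun m : ℕ => 1 / ((m : ℝ) + 1) ^ 2) := by
    have h1 := (summable_nat_add_iff (f := fun m : ℕ => 1 / (m : ℝ) ^ 2) 1).mpr
      (Real.summable_one_div_nat_pow.mpr (by norm_num))
    refine h1.congr fun m => ?_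
    push_cast
    rfl
  filter_upwards [bc' volume s _ hsum p0 hmu] with φ h1
  filter_upwards [h1] with m hm
  simp only [hs, Set.mem_ofPred_eq] at hm
  exact (not_le.mp hm).le

/-- the statement of stage `i` -/
def ST (j A U C N0 i : ℕ) (θ : Fin (j + 3 + i) → ℝ) : Prop :=
  (∀ l, 1 / (A : ℝ) ≤ θ l ∧ θ l ≤ A) → ∀ᶠ m : ℕ in atTop,
    volume (Bad j C ((j + 2) * A * 2 ^ (j + 2) + A) U (2 ^ m) (m / N0) i θ) ≤ ENNReal.ofReal (lam j N0 i m)

theorem ST_meas (j A U C N0 i : ℕ) : MeasurableSet {θ : Fin (j + 3 + i) → ℝ | ST j A U C N0 i θ} := by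
  have h1 : {θ : Fin (j + 3 + i) → ℝ | ST j A U C N0 i θ} =
      {θ : Fin (j + 3 + i) → ℝ | ∀ l, 1 / (A : ℝ) ≤ θ l ∧ θ l ≤ (A : ℝ)}ᶜ ∪ ⋃ n : ℕ, ⋂ m : ℕ, ⋂ _ : n ≤ m,
        {θ | volume (Bad j C ((j + 2) * A * 2 ^ (j + 2) + A) U (2 ^ m) (m / N0) i θ) ≤ ENNReal.ofReal (lam j N0 i m)} := by
    ext θ
    simp only [ST, Set.mem_ofPred_eq, Set.mem_union, Set.mem_compl_iff, Set.mem_iUnion, Set.mem_iInter,
      eventually_atTop]
    tauto
  rw [h1]
  apply MeasurableSet.union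
  · apply MeasurableSet.compl
    have h2 : {θ : Fin (j + 3 + i) → ℝ | ∀ l, 1 / (A : ℝ) ≤ θ l ∧ θ l ≤ A} =
        Set.Icc (fun _ => 1 / (A : ℝ)) (fun _ => (A : ℝ)) := by
      ext θ
      simp only [Set.mem_ofPred_eq, Set.mem_Icc, Pi.le_def]
      exact forall_and
    rw [h2]
    exact measurableSet_Icc
  · refine MeasurableSet.iUnion fun n => MeasurableSet.iInter fun m => MeasurableSet.iInter fun _ => ?_
    exact measurableSet_le (Bad_vol_meas j C _ U (2 ^ m) (m / N0) i) measurable_const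

theorem stageN (j A U C N0 : ℕ) (hA : 1 ≤ A) (hC : C = A * U) (hU : 2 ≤ U) (hN : 1 ≤ N0) (i : ℕ) :
    ∀ᵐ θ : Fin (j + 3 + i) → ℝ, ST j A U C N0 i θ := by
  induction i with
  | zero =>
    have h1 := stage0 j A U C N0 hA hC hU hN
    rw [ae_restrict_iff' (QB_meas _ _)] at h1
    filter_upwards [h1] with θ hθ hb
    have h2 : θ ∈ QB (j + 3) (A : ℝ) := by
      rw [mem_QB]
      intro l
      rw [abs_le]
      have h3 := hb l
      have h4 : 0 ≤ 1 / (A : ℝ) := by positivity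
      constructor
      · linarith [h3.1, h3.2]
      · exact h3.2
    filter_upwards [hθ h2] with m hm
    exact hm fun l => (hb l).1
  | succ i ih =>
    have hmp := volume_preserving_piFinSuccAbove (fun _ : Fin (j + 3 + i + 1) => ℝ) 0
    have hST := ST_meas j A U C N0 (i + 1)
    have hNm : MeasurableSet ({θ : Fin (j + 3 + i + 1) → ℝ | ST j A U C N0 (i + 1) θ}ᶜ) := hST.compl
    rw [ae_iff]
    have h0 : {a : Fin (j + 3 + (i + 1)) → ℝ | ¬ST j A U C N0 (i + 1) a} =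
        {θ : Fin (j + 3 + i + 1) → ℝ | ST j A U C N0 (i + 1) θ}ᶜ := rfl
    rw [h0]
    have hmps := hmp.symm
    rw [← hmps.measure_preimage hNm.nullMeasurableSet, Measure.volume_eq_prod,
      Measure.prod_apply_symm (hmps.measurable hNm)]
    rw [lintegral_eq_zero_of_ae_eq_zero]
    filter_upwards [ih] with θ' hθ'
    rw [Pi.zero_apply]
    have key : ∀ᵐ φ : ℝ, ST j A U C N0 (i + 1) (Fin.cons φ θ' : Fin (j + 3 + i + 1) → ℝ) := by
      by_cases hb : ∀ l, 1 / (A : ℝ) ≤ θ' l ∧ θ' l ≤ A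
      · have h1 := step1 j N0 i hN (fun m => Bad j C ((j + 2) * A * 2 ^ (j + 2) + A) U (2 ^ m) (m / N0) i θ')
          (fun m => Bad_meas _ _ _ _ _ _ _ _) (hθ' hb)
        filter_upwards [h1] with φ hφ _
        filter_upwards [hφ] with m hm
        exact hm
      · apply Eventually.of_forall
        intro φ h1
        exact absurd (fun l => by
          have := h1 (Fin.succ l)
          rwa [Fin.cons_succ] at this) hb
    rw [ae_iff] at key
    refine measure_mono_null ?_ key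
    intro φ hφ
    have h2 : (MeasurableEquiv.piFinSuccAbove (fun _ : Fin (j + 3 + i + 1) => ℝ) 0).symm (φ, θ') =
        (Fin.cons φ θ' : Fin (j + 3 + i + 1) → ℝ) := by
      have h3 : (MeasurableEquiv.piFinSuccAbove (fun _ : Fin (j + 3 + i + 1) => ℝ) 0).symm (φ, θ') =
        Fin.insertNth (α := fun _ => ℝ) 0 φ θ' := rfl
      rw [h3, Fin.insertNth_zero']
    simp only [Set.mem_preimage, Set.mem_compl_iff, Set.mem_ofPred_eq] at hφ ⊢
    rw [h2] at hφ
    exact hφ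

end Pool.Agent.Y867.WC
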