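import Pool.Agent.Y867.WC.GaI

/-! # Conclusion -/

set_option autoImplicit false

open MeasureTheory Filter Finset
open scoped ENNReal Real

namespace Pool.Agent.Y867.WC

theorem good (j C L U P h A i : ℕ) (hP : 1 ≤ P) (θ : Fin (j + 3 + i) → ℝ) (h2 : ∀ l, 0 ≤ θ l ∧ θ l ≤ (A : ℝ)) (τ : ℝ)
    (h3 : ((L : ℝ) + i * (A * 2 ^ (j + 2))) * (P : ℝ) ^ (j + 2) ≤ τ) (h4 : τ ≤ (U : ℝ) * (P : ℝ) ^ (j + 2))
    (hτ : τ ∉ Bad j C L U P h i θ) :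
    ∃ x : Fin (j + 3 + i) → ℕ, (∀ l, 1 ≤ x l) ∧ |∑ l, θ l * (x l : ℝ) ^ (j + 2) - τ| < 1 / 2 ^ h := by
  induction i generalizing τ with
  | zero =>
    have h5 : ¬((L : ℝ) * (P : ℝ) ^ (j + 2) ≤ τ ∧ τ ≤ (U : ℝ) * (P : ℝ) ^ (j + 2) ∧
      ∀ x ∈ BX (j + 3) P C, 1 / (2 : ℝ) ^ h ≤ |F j (j + 3) θ x - τ|) := hτ
    push Not at h5
    have h6 : (L : ℝ) * (P : ℝ) ^ (j + 2) ≤ τ := by
      simpa using h3
    obtain ⟨x, hx, hx'⟩ := h5 h6 h4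
    refine ⟨fun l => (x l).toNat, fun l => ?_, ?_⟩
    · unfold BX at hx
      rw [Fintype.mem_piFinset] at hx
      have h8 := hx l
      unfold XX at h8
      have h9 := (Finset.mem_Icc.mp h8).1
      have : (1 : ℤ) ≤ x l := by omega
      show 1 ≤ (x l).toNat
      omega
    have h7 : ∀ l, (((x l).toNat : ℕ) : ℝ) = (x l : ℝ) := by
      intro l
      unfold BX at hx
      rw [Fintype.mem_piFinset] at hx
      have h8 := hx l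
      unfold XX at h8
      have h9 := (Finset.mem_Icc.mp h8).1
      have h10 : (((x l).toNat : ℕ) : ℤ) = x l := Int.toNat_of_nonneg (by omega)
      exact_mod_cast h10
    have h11 : ∑ l, θ l * (((x l).toNat : ℕ) : ℝ) ^ (j + 2) = F j (j + 3) θ x := by
      unfold F
      exact Finset.sum_congr rfl fun l _ => by rw [h7]
    rw [h11]
    exact hx'
  | succ i ih =>
    have h5 : ¬(τ - θ 0 * (P : ℝ) ^ (j + 2) ∈ Bad j C L U P h i (Fin.tail θ) ∧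
        τ - θ 0 * (2 * (P : ℝ)) ^ (j + 2) ∈ Bad j C L U P h i (Fin.tail θ)) := hτ
    have hP' : (1 : ℝ) ≤ P := by exact_mod_cast hP
    have h6 : ∃ Y : ℕ, (Y = P ∨ Y = 2 * P) ∧ τ - θ 0 * (Y : ℝ) ^ (j + 2) ∉ Bad j C L U P h i (Fin.tail θ) := by
      by_cases h7 : τ - θ 0 * (P : ℝ) ^ (j + 2) ∈ Bad j C L U P h i (Fin.tail θ)
      · refine ⟨2 * P, Or.inr rfl, ?_⟩
        have h8 : τ - θ 0 * (2 * (P : ℝ)) ^ (j + 2) ∉ Bad j C L U P h i (Fin.tail θ) := fun h9 => h5 ⟨h7, h9⟩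
        push_cast
        exact h8
      · exact ⟨P, Or.inl rfl, h7⟩
    obtain ⟨Y, hY, hY'⟩ := h6
    have hY1 : (Y : ℝ) ^ (j + 2) ≤ 2 ^ (j + 2) * (P : ℝ) ^ (j + 2) := by
      rw [← mul_pow]
      apply pow_le_pow_left₀ (by positivity)
      rcases hY with h | h
      · rw [h]
        linarith
      · rw [h]
        push_cast
        exact le_refl _
    have h7 : θ 0 * (Y : ℝ) ^ (j + 2) ≤ A * (2 ^ (j + 2) * (P : ℝ) ^ (j + 2)) :=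
      mul_le_mul (h2 0).2 hY1 (by positivity) (by positivity)
    have h8 : 0 ≤ θ 0 * (Y : ℝ) ^ (j + 2) := mul_nonneg (h2 0).1 (by positivity)
    obtain ⟨x, hx1, hx⟩ := ih (Fin.tail θ) (fun l => h2 l.succ) (τ - θ 0 * (Y : ℝ) ^ (j + 2)) (by
      push_cast at h3
      have h9 : ((L : ℝ) + ((i : ℝ) + 1) * (A * 2 ^ (j + 2))) * (P : ℝ) ^ (j + 2) =
        ((L : ℝ) + i * (A * 2 ^ (j + 2))) * (P : ℝ) ^ (j + 2) + A * (2 ^ (j + 2) * (P : ℝ) ^ (j + 2)) := by ring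
      rw [h9] at h3
      linarith) (by linarith) hY'
    refine ⟨(Fin.cons Y x : Fin (j + 3 + i + 1) → ℕ), ?_, ?_⟩
    · intro l
      refine Fin.cases ?_ (fun l' => ?_) l
      · rw [Fin.cons_zero]
        rcases hY with h | h <;> omega
      · rw [Fin.cons_succ]
        exact hx1 l'
    have h9 : ∑ l : Fin (j + 3 + (i + 1)), θ l * (((Fin.cons Y x : Fin (j + 3 + i + 1) → ℕ) l : ℕ) : ℝ) ^ (j + 2) =
        θ 0 * (Y : ℝ) ^ (j + 2) + ∑ l, Fin.tail θ l * (x l : ℝ) ^ (j + 2) := by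
      have h10 := Fin.sum_univ_succ (n := j + 3 + i)
        (fun l : Fin (j + 3 + i + 1) => θ l * (((Fin.cons Y x : Fin (j + 3 + i + 1) → ℕ) l : ℕ) : ℝ) ^ (j + 2))
      simp only [Fin.cons_zero, Fin.cons_succ] at h10
      exact h10
    rw [h9]
    have h10 : θ 0 * (Y : ℝ) ^ (j + 2) + ∑ l, Fin.tail θ l * (x l : ℝ) ^ (j + 2) - τ =
      ∑ l, Fin.tail θ l * (x l : ℝ) ^ (j + 2) - (τ - θ 0 * (Y : ℝ) ^ (j + 2)) := by ring
    rw [h10]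
    exact hx

theorem lam_le (j t m : ℕ) (ht : j + 2 < 2 ^ t) : lam j (6 * (j + 3)) t m ≤ 1 / 2 ^ (m / (6 * (j + 3))) := by
  unfold lam
  set h := m / (6 * (j + 3)) with hh
  have hm : 6 * (j + 3) * h ≤ m := Nat.mul_div_le m _
  have hP1 : (1 : ℝ) ≤ ((2 ^ m : ℕ) : ℝ) := by exact_mod_cast Nat.one_le_two_pow
  have hPeq : ((2 ^ m : ℕ) : ℝ) = 2 ^ m := by push_cast; ring
  rw [hPeq]
  have hr : (2 : ℝ) ^ (5 * h) / 2 ^ m ≤ 1 := by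
    rw [div_le_one (by positivity)]
    apply pow_le_pow_right₀ (by norm_num)
    nlinarith
  have hr0 : 0 ≤ (2 : ℝ) ^ (5 * h) / 2 ^ m := by positivity
  apply div_le_div_of_nonneg_right _ (by positivity)
  have h1 : ((2 : ℝ) ^ (5 * h) / 2 ^ m) ^ (2 ^ t) ≤ ((2 : ℝ) ^ (5 * h) / 2 ^ m) ^ (j + 3) :=
    pow_le_pow_of_le_one hr0 hr (by omega)
  calc ((2 : ℝ) ^ m) ^ (j + 2) * ((2 : ℝ) ^ (5 * h) / 2 ^ m) ^ (2 ^ t) ≤
        ((2 : ℝ) ^ m) ^ (j + 2) * ((2 : ℝ) ^ (5 * h) / 2 ^ m) ^ (j + 3) := mul_le_mul_of_nonneg_left h1 (by positivity)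
    _ = (2 : ℝ) ^ (5 * h * (j + 3)) / 2 ^ m := by
        rw [div_pow, ← pow_mul, ← pow_mul, ← pow_mul, mul_div_assoc', div_eq_div_iff (by positivity) (by positivity),
          ← pow_add, ← pow_add, ← pow_add]
        congr 1
        ring
    _ ≤ 1 := by
        rw [div_le_one (by positivity)]
        apply pow_le_pow_right₀ (by norm_num)
        nlinarith

/-- one scale -/
theorem scale (j A t m : ℕ) (hA : 1 ≤ A) (ht : j + 2 < 2 ^ t) (L' U C : ℕ)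
    (hL' : L' = (j + 2) * A * 2 ^ (j + 2) + A + t * (A * 2 ^ (j + 2))) (hU : U = (L' + 1) * 2 ^ (j + 2) + 2)
    (θ : Fin (j + 3 + t) → ℝ) (h2 : ∀ l, 1 / (A : ℝ) ≤ θ l ∧ θ l ≤ A)
    (hb : volume (Bad j C ((j + 2) * A * 2 ^ (j + 2) + A) U (2 ^ m) (m / (6 * (j + 3))) t θ) ≤
      ENNReal.ofReal (lam j (6 * (j + 3)) t m)) (τ : ℝ) (h3 : ((L' : ℝ) + 1) * ((2 : ℝ) ^ m) ^ (j + 2) ≤ τ)
    (h4 : τ ≤ ((L' : ℝ) + 1) * 2 ^ (j + 2) * ((2 : ℝ) ^ m) ^ (j + 2)) :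
    ∃ x : Fin (j + 3 + t) → ℕ, (∀ l, 1 ≤ x l) ∧
      |∑ l, θ l * (x l : ℝ) ^ (j + 2) - τ| < 2 / 2 ^ (m / (6 * (j + 3))) := by
  set h := m / (6 * (j + 3)) with hh
  by_contra hcon
  push Not at hcon
  have hA' : (1 : ℝ) ≤ A := by exact_mod_cast hA
  have hP1 : (1 : ℝ) ≤ ((2 : ℝ) ^ m) ^ (j + 2) := one_le_pow₀ (one_le_pow₀ (by norm_num))
  have h2h : (0 : ℝ) < 2 ^ h := by positivity
  have h2h1 : (1 : ℝ) / 2 ^ h ≤ 1 := by
    rw [div_le_one h2h]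
    exact one_le_pow₀ (by norm_num)
  have hPc : ((2 ^ m : ℕ) : ℝ) = 2 ^ m := by push_cast; ring
  have hsub : Set.Icc (τ - 1 / 2 ^ h) (τ + 1 / 2 ^ h) ⊆
      Bad j C ((j + 2) * A * 2 ^ (j + 2) + A) U (2 ^ m) h t θ := by
    intro τ' hτ'
    by_contra hn
    have hlow : ((((j + 2) * A * 2 ^ (j + 2) + A : ℕ) : ℝ) + t * (A * 2 ^ (j + 2))) * ((2 ^ m : ℕ) : ℝ) ^ (j + 2) ≤ τ' := by
      have h5 : ((((j + 2) * A * 2 ^ (j + 2) + A : ℕ) : ℝ) + t * (A * 2 ^ (j + 2))) = (L' : ℝ) := by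
        rw [hL']
        push_cast
        ring
      rw [h5, hPc]
      have h6 : ((L' : ℝ) + 1) * ((2 : ℝ) ^ m) ^ (j + 2) = L' * ((2 : ℝ) ^ m) ^ (j + 2) + ((2 : ℝ) ^ m) ^ (j + 2) := by ring
      rw [h6] at h3
      linarith [hτ'.1]
    have hup : τ' ≤ (U : ℝ) * ((2 ^ m : ℕ) : ℝ) ^ (j + 2) := by
      rw [hPc, hU]
      push_cast
      have h6 : (((L' : ℝ) + 1) * 2 ^ (j + 2) + 2) * ((2 : ℝ) ^ m) ^ (j + 2) =
        ((L' : ℝ) + 1) * 2 ^ (j + 2) * ((2 : ℝ) ^ m) ^ (j + 2) + 2 * ((2 : ℝ) ^ m) ^ (j + 2) := by ring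
      rw [h6]
      linarith [hτ'.2]
    obtain ⟨x, hx1, hx⟩ := good j C ((j + 2) * A * 2 ^ (j + 2) + A) U (2 ^ m) h A t Nat.one_le_two_pow θ
      (fun l => ⟨le_trans (by positivity) (h2 l).1, (h2 l).2⟩) τ' hlow hup hn
    have h7 := hcon x hx1
    have h8 : |τ' - τ| ≤ 1 / 2 ^ h := by
      rw [abs_le]
      constructor <;> linarith [hτ'.1, hτ'.2]
    have h9 : |∑ l, θ l * (x l : ℝ) ^ (j + 2) - τ| ≤ |∑ l, θ l * (x l : ℝ) ^ (j + 2) - τ'| + |τ' - τ| := by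
      have h10 : ∑ l, θ l * (x l : ℝ) ^ (j + 2) - τ = (∑ l, θ l * (x l : ℝ) ^ (j + 2) - τ') + (τ' - τ) := by ring
      rw [h10]
      exact abs_add_le _ _
    have h11 : (2 : ℝ) / 2 ^ h = 1 / 2 ^ h + 1 / 2 ^ h := by ring
    linarith
  have h5 := measure_mono (μ := volume) hsub
  rw [Real.volume_Icc] at h5
  have h6 := (h5.trans hb).trans (ENNReal.ofReal_le_ofReal (lam_le j t m ht))
  rw [ENNReal.ofReal_le_ofReal_iff (by positivity)] at h6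
  have h7 : (0 : ℝ) < 1 / 2 ^ h := by positivity
  linarith

/-- the exponent -/
theorem final_exp (j L' : ℕ) : ∃ m0 : ℕ, ∀ m, m0 ≤ m → ∀ τ : ℝ, 0 < τ →
    τ ≤ ((L' : ℝ) + 1) * 2 ^ (j + 2) * ((2 : ℝ) ^ m) ^ (j + 2) →
    2 / 2 ^ (m / (6 * (j + 3))) ≤ τ ^ (-(1 / (8 * ((j : ℝ) + 2) * (j + 3)))) := by
  obtain ⟨l0, hl0⟩ := pow_unbounded_of_one_lt ((L' : ℝ) + 1) (by norm_num : (1 : ℝ) < 2)
  have h3 : Tendsto (fun m : ℕ => m / (6 * (j + 3))) atTop atTop := Nat.tendsto_div_const_atTop (by omega)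
  obtain ⟨m0, hm0⟩ := eventually_atTop.mp (h3.eventually (eventually_ge_atTop (8 + l0)))
  refine ⟨m0, fun m hm τ hτ0 hτ => ?_⟩
  have hh := hm0 m hm
  set h := m / (6 * (j + 3)) with hhdef
  obtain ⟨g, hg⟩ : ∃ g, h = g + 1 := ⟨h - 1, by omega⟩
  have hm1 : m ≤ 6 * (j + 3) * (h + 1) := (Nat.lt_mul_div_succ m (by omega : 0 < 6 * (j + 3))).le
  -- τ ≤ (2 ^ g) ^ s
  have h5 : τ ≤ ((2 : ℝ) ^ g) ^ (8 * (j + 2) * (j + 3)) := by
    refine hτ.trans ?_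
    have h6 : ((L' : ℝ) + 1) * 2 ^ (j + 2) * ((2 : ℝ) ^ m) ^ (j + 2) ≤ 2 ^ l0 * 2 ^ (j + 2) * ((2 : ℝ) ^ m) ^ (j + 2) := by
      apply mul_le_mul_of_nonneg_right _ (by positivity)
      exact mul_le_mul_of_nonneg_right hl0.le (by positivity)
    refine h6.trans ?_
    rw [← pow_mul, ← pow_mul, ← pow_add, ← pow_add]
    apply pow_le_pow_right₀ (by norm_num)
    have h7 : m * (j + 2) ≤ 6 * (j + 3) * (h + 1) * (j + 2) := Nat.mul_le_mul_right _ hm1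
    have h8 : 7 + l0 ≤ g := by omega
    have h9 : l0 + (j + 2) + 6 * (j + 3) * (h + 1) * (j + 2) ≤ g * (8 * (j + 2) * (j + 3)) := by
      rw [hg]
      obtain ⟨d, hd⟩ := Nat.exists_eq_add_of_le h8
      rw [hd]
      have : 1 ≤ (j + 2) * (j + 3) := Nat.mul_pos (by omega) (by omega)
      nlinarith [Nat.zero_le (l0 * j), Nat.zero_le (l0 * j * j), Nat.zero_le (d * j), Nat.zero_le (d * j * j), Nat.zero_le (j * j)]
    omega
  have hs : (0 : ℝ) < 8 * ((j : ℝ) + 2) * (j + 3) := by positivity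
  have h6 : τ ^ (1 / (8 * ((j : ℝ) + 2) * (j + 3))) ≤ 2 ^ g := by
    have h7 := Real.rpow_le_rpow hτ0.le h5 (by positivity : 0 ≤ 1 / (8 * ((j : ℝ) + 2) * (j + 3)))
    refine h7.trans (le_of_eq ?_)
    rw [← Real.rpow_natCast, ← Real.rpow_mul (by positivity)]
    push_cast
    rw [mul_one_div_cancel hs.ne', Real.rpow_one]
  rw [Real.rpow_neg hτ0.le]
  have h7 : (0 : ℝ) < τ ^ (1 / (8 * ((j : ℝ) + 2) * (j + 3))) := Real.rpow_pos_of_pos hτ0 _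
  have h8 : (2 : ℝ) / 2 ^ h = (2 ^ g)⁻¹ := by
    rw [hg, pow_succ]
    field_simp
  rw [h8]
  exact inv_anti₀ h7 h6

theorem main_real (j t : ℕ) (ht : j + 2 < 2 ^ t) :
    ∀ᵐ θ : Fin (j + 3 + t) → ℝ, (∀ l, 0 < θ l) → ∃ T : ℝ, ∀ τ : ℝ, T ≤ τ →
      ∃ x : Fin (j + 3 + t) → ℕ, (∀ l, 1 ≤ x l) ∧
        |∑ l, θ l * (x l : ℝ) ^ (j + 2) - τ| < τ ^ (-(1 / (8 * ((j : ℝ) + 2) * (j + 3)))) := by
  have hall : ∀ᵐ θ : Fin (j + 3 + t) → ℝ, ∀ A : ℕ, 1 ≤ A →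
      ST j A (((j + 2) * A * 2 ^ (j + 2) + A + t * (A * 2 ^ (j + 2)) + 1) * 2 ^ (j + 2) + 2)
        (A * (((j + 2) * A * 2 ^ (j + 2) + A + t * (A * 2 ^ (j + 2)) + 1) * 2 ^ (j + 2) + 2)) (6 * (j + 3)) t θ := by
    rw [ae_all_iff]
    intro A
    by_cases hA : 1 ≤ A
    · filter_upwards [stageN j A (((j + 2) * A * 2 ^ (j + 2) + A + t * (A * 2 ^ (j + 2)) + 1) * 2 ^ (j + 2) + 2)
        (A * (((j + 2) * A * 2 ^ (j + 2) + A + t * (A * 2 ^ (j + 2)) + 1) * 2 ^ (j + 2) + 2)) (6 * (j + 3)) hA rfl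
        (by omega) (by omega) t] with θ hθ _
      exact hθ
    · exact Eventually.of_forall fun θ h => absurd h hA
  filter_upwards [hall] with θ hθ hpos
  -- choose A
  obtain ⟨A, hA1⟩ := exists_nat_ge (1 + ∑ l, (θ l + 1 / θ l))
  have hsum0 : ∀ l, 0 ≤ θ l + 1 / θ l := fun l => by
    have := hpos l
    positivity
  have hle : ∀ l, θ l + 1 / θ l ≤ ∑ l, (θ l + 1 / θ l) := fun l =>
    Finset.single_le_sum (f := fun l => θ l + 1 / θ l) (fun i _ => hsum0 i) (Finset.mem_univ l)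
  have hsum1 : 0 ≤ ∑ l, (θ l + 1 / θ l) := Finset.sum_nonneg fun l _ => hsum0 l
  have hA : 1 ≤ A := by
    have : (1 : ℝ) ≤ A := by linarith
    exact_mod_cast this
  have hA' : (1 : ℝ) ≤ A := by exact_mod_cast hA
  have hb : ∀ l, 1 / (A : ℝ) ≤ θ l ∧ θ l ≤ A := by
    intro l
    have h1 := hle l
    have h2 := hpos l
    have h3 : 0 < 1 / θ l := by positivity
    constructor
    · rw [div_le_iff₀ (by linarith)]
      have h4 : 1 / θ l ≤ A := by linarith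
      rw [div_le_iff₀ h2] at h4
      linarith
    · linarith
  have h1 := hθ A hA hb
  set L' := (j + 2) * A * 2 ^ (j + 2) + A + t * (A * 2 ^ (j + 2)) with hL'
  obtain ⟨m1, hm1⟩ := eventually_atTop.mp h1
  obtain ⟨m0, hm0⟩ := final_exp j L'
  refine ⟨((L' : ℝ) + 1) * ((2 : ℝ) ^ (j + 2)) ^ (m0 + m1), fun τ hτ => ?_⟩
  have hL1 : (0 : ℝ) < (L' : ℝ) + 1 := by positivity
  have hτ1 : ((2 : ℝ) ^ (j + 2)) ^ (m0 + m1) ≤ τ / ((L' : ℝ) + 1) := by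
    rw [le_div_iff₀ hL1]
    linarith
  have h2k : (1 : ℝ) < 2 ^ (j + 2) := one_lt_pow₀ (by norm_num) (by omega)
  have hone : (1 : ℝ) ≤ τ / ((L' : ℝ) + 1) := le_trans (one_le_pow₀ h2k.le) hτ1
  obtain ⟨m, hma, hmb⟩ := exists_nat_pow_near hone h2k
  have hmm : m0 + m1 ≤ m := by
    by_contra hlt
    push Not at hlt
    have h5 : ((2 : ℝ) ^ (j + 2)) ^ (m + 1) ≤ ((2 : ℝ) ^ (j + 2)) ^ (m0 + m1) := pow_le_pow_right₀ h2k.le hlt
    linarith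
  rw [le_div_iff₀ hL1] at hma
  rw [div_lt_iff₀ hL1] at hmb
  have hcomm : ((2 : ℝ) ^ (j + 2)) ^ m = ((2 : ℝ) ^ m) ^ (j + 2) := by rw [← pow_mul, ← pow_mul, mul_comm]
  have h3 : ((L' : ℝ) + 1) * ((2 : ℝ) ^ m) ^ (j + 2) ≤ τ := by
    rw [← hcomm]
    linarith
  have h4 : τ ≤ ((L' : ℝ) + 1) * 2 ^ (j + 2) * ((2 : ℝ) ^ m) ^ (j + 2) := by
    rw [← hcomm]
    rw [pow_succ] at hmb
    linarith
  have hτ0 : 0 < τ := lt_of_lt_of_le (by positivity) h3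
  obtain ⟨x, hx1, hx⟩ := scale j A t m hA ht L' ((L' + 1) * 2 ^ (j + 2) + 2)
    (A * ((L' + 1) * 2 ^ (j + 2) + 2)) hL' rfl θ hb (hm1 m (by omega)) τ h3 h4
  exact ⟨x, hx1, hx.trans_le (hm0 m (by omega) τ hτ0 h4)⟩

end Pool.Agent.Y867.WC
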